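import Pool.Agent.Q41.SP.Stm2
import Pool.Agent.Q128.SU.NumCore
import Pool.Agent.Q162.SU.T8a
import Pool.Agent.Q198.SU.Num

/-!
# Project SP (helper41), job Q2 (helper84): the numerical contradiction, twisted
-/

set_option autoImplicit false

namespace Pool.Agent.Q84.SP

open Finset Pool.Agent.Q41.SU Pool.Agent.Q41.SP Pool.Agent.Q128.SU

universe u

section tr

variable {ι : Type*} [Fintype ι] [DecidableEq ι]

lemma cnt_eq (o : ι → ι → ℤ) (i : ℕ) (l : ι) :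
    (cnt o i l : ℝ) - 1 = ∑ m ∈ univ.erase l, if (i : ℤ) ≤ o l m then (1 : ℝ) else 0 := by
  have h1 : cnt o i l = ((univ.erase l).filter fun m => (i : ℤ) ≤ o l m).card + 1 := by
    unfold cnt
    rw [← card_insert_of_notMem (s := (univ.erase l).filter fun m => (i : ℤ) ≤ o l m) (a := l) (by simp)]
    congr 1
    ext m
    simp only [mem_filter, mem_univ, true_and, mem_insert, mem_erase, and_true]
    by_cases hm : m = l
    · simp [hm]
    · simp [hm]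
  rw [h1]
  push_cast
  rw [sum_ite, sum_const_zero, sum_const, nsmul_eq_mul]
  ring

/-- the sum over the levels of a truncated function -/
lemma LS_trunc (o : ι → ι → ℤ) (M T : ℕ) (B : ℝ) (hB : 0 ≤ B) :
    LS (fun m => (m : ℝ) * min ((m : ℝ) - 1) B) M o ≤
      B * Fintype.card ι * T + ∑ l, ∑ m ∈ univ.erase l, max 0 ((o l m : ℝ) - T) := by
  unfold LS
  have h1 : ∀ i ∈ Icc 1 M, ∀ l, (cnt o i l : ℝ) * min ((cnt o i l : ℝ) - 1) B / cnt o i l ≤
      (if i ≤ T then B else 0) + ∑ m ∈ univ.erase l, if T < i ∧ (i : ℤ) ≤ o l m then (1 : ℝ) else 0 := by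
    intro i hi l
    have hc : (0 : ℝ) < cnt o i l := by exact_mod_cast one_le_cnt o i l
    rw [mul_div_assoc, mul_div_cancel₀ _ hc.ne']
    by_cases hT : i ≤ T
    · rw [if_pos hT]
      have : 0 ≤ ∑ m ∈ univ.erase l, if T < i ∧ (i : ℤ) ≤ o l m then (1 : ℝ) else 0 :=
        sum_nonneg (fun m _ => by split_ifs <;> norm_num)
      linarith [min_le_right ((cnt o i l : ℝ) - 1) B]
    · rw [if_neg hT, zero_add]
      push Not at hT
      refine (min_le_left _ _).trans (le_of_eq ?_)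
      rw [cnt_eq]
      apply sum_congr rfl
      intro m _
      simp only [hT, true_and]
  refine (sum_le_sum fun i hi => sum_le_sum fun l _ => h1 i hi l).trans ?_
  have h2 : ∑ i ∈ Icc 1 M, ∑ l : ι, ((if i ≤ T then B else 0) +
      ∑ m ∈ univ.erase l, if T < i ∧ (i : ℤ) ≤ o l m then (1 : ℝ) else 0) =
      (∑ i ∈ Icc 1 M, (if i ≤ T then B else 0)) * Fintype.card ι +
        ∑ l, ∑ m ∈ univ.erase l, ∑ i ∈ Icc 1 M, if T < i ∧ (i : ℤ) ≤ o l m then (1 : ℝ) else 0 := by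
    simp only [sum_add_distrib]
    congr 1
    · rw [sum_mul]
      apply sum_congr rfl
      intro i _
      rw [sum_const, card_univ, nsmul_eq_mul]
      ring
    · rw [sum_comm]
      apply sum_congr rfl
      intro l _
      rw [sum_comm]
  rw [h2]
  apply add_le_add
  · have h3 : ∑ i ∈ Icc 1 M, (if i ≤ T then B else 0) ≤ B * T := by
      rw [← sum_filter, sum_const, nsmul_eq_mul, mul_comm]
      apply mul_le_mul_of_nonneg_left _ hB
      have : ((Icc 1 M).filter fun i => i ≤ T).card ≤ (Icc 1 T).card := by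
        apply card_le_card
        intro i hi
        rw [mem_filter, mem_Icc] at hi
        rw [mem_Icc]
        exact ⟨hi.1.1, hi.2⟩
      rw [Nat.card_Icc, Nat.add_sub_cancel] at this
      exact_mod_cast this
    calc _ ≤ (B * T) * (Fintype.card ι : ℝ) := mul_le_mul_of_nonneg_right h3 (Nat.cast_nonneg _)
      _ = _ := by ring
  · apply sum_le_sum
    intro l _
    apply sum_le_sum
    intro m _
    rw [← sum_filter, sum_const, nsmul_eq_mul, mul_one]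
    have h4 : ((Icc 1 M).filter fun i => T < i ∧ (i : ℤ) ≤ o l m).card ≤ (Ioc T (o l m).toNat).card := by
      apply card_le_card
      intro i hi
      rw [mem_filter] at hi
      rw [mem_Ioc]
      refine ⟨hi.2.1, ?_⟩
      have := hi.2.2
      omega
    rw [Nat.card_Ioc] at h4
    have h5 : ((((Icc 1 M).filter fun i => T < i ∧ (i : ℤ) ≤ o l m).card : ℕ) : ℝ) ≤ (((o l m).toNat - T : ℕ) : ℝ) := by
      exact_mod_cast h4
    refine h5.trans ?_
    rcases le_or_gt (o l m).toNat T with h6 | h6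
    · rw [Nat.sub_eq_zero_of_le h6, Nat.cast_zero]
      exact le_max_left _ _
    · rw [Nat.cast_sub h6.le]
      have h7 : (((o l m).toNat : ℕ) : ℝ) = (o l m : ℝ) := by
        have h8 : (((o l m).toNat : ℕ) : ℤ) = o l m := Int.toNat_of_nonneg (by omega)
        exact_mod_cast h8
      rw [h7]
      exact le_max_right _ _

end tr

lemma nn (n : ℕ) : (0 : ℝ) ≤ n * ((n : ℝ) - 1) := by
  rcases Nat.eq_zero_or_pos n with h0 | h0
  · simp [h0]
  · have : (1 : ℝ) ≤ n := by exact_mod_cast h0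
    exact mul_nonneg (by positivity) (by linarith)

lemma coefA (a b : ℝ) (ha : 0 ≤ a) (hb : 0 ≤ b) (hab : 0 < a + b) :
    a / (2 * ((a + 1) * (b + 1) - 1)) ≤ 1 / (2 * (b + 1)) := by
  have h1 : 0 < (a + 1) * (b + 1) - 1 := by nlinarith [mul_nonneg ha hb]
  rw [div_le_div_iff₀ (by positivity) (by positivity)]
  nlinarith [mul_nonneg ha hb]

lemma coefB (a b : ℝ) (ha : 0 ≤ a) (hb : 0 ≤ b) (hab : 0 < a + b) :
    b / (2 * ((a + 1) * (b + 1) - 1)) ≤ 1 / (2 * (a + 1)) := by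
  have h1 : 0 < (a + 1) * (b + 1) - 1 := by nlinarith [mul_nonneg ha hb]
  rw [div_le_div_iff₀ (by positivity) (by positivity)]
  nlinarith [mul_nonneg ha hb]

lemma K1_le' (a b n : ℕ) (hab : 1 ≤ a + b) :
    K1 a b n ≤ (n : ℝ) * (n - 1) / (2 * (b + 1)) - phi 1 0 a b n := by
  have h := mul_le_mul_of_nonneg_right (coefA (a : ℝ) b (Nat.cast_nonneg _) (Nat.cast_nonneg _)
    (by exact_mod_cast hab)) (nn n)
  have e : 1 / (2 * ((b : ℝ) + 1)) * ((n : ℝ) * ((n : ℝ) - 1)) = (n : ℝ) * (n - 1) / (2 * (b + 1)) := by ring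
  unfold K1
  linarith

lemma K2_le' (a b n : ℕ) (hab : 1 ≤ a + b) :
    K2 a b n ≤ (n : ℝ) * (n - 1) / (2 * (a + 1)) - phi 0 1 a b n := by
  have h := mul_le_mul_of_nonneg_right (coefB (a : ℝ) b (Nat.cast_nonneg _) (Nat.cast_nonneg _)
    (by exact_mod_cast hab)) (nn n)
  have e : 1 / (2 * ((a : ℝ) + 1)) * ((n : ℝ) * ((n : ℝ) - 1)) = (n : ℝ) * (n - 1) / (2 * (a + 1)) := by ring
  unfold K2
  linarith

/-- the two loss functions, first bound -/
lemma K1_le (a b n : ℕ) (hb : 1 ≤ b) : K1 a b n ≤ (n : ℝ) * (n - 1) / (2 * b) := by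
  have h := K1_le' a b n (by omega)
  have h1 : (n : ℝ) * (n - 1) / (2 * (b + 1)) ≤ (n : ℝ) * (n - 1) / (2 * b) := by
    have hb' : (0 : ℝ) < b := by exact_mod_cast hb
    apply div_le_div_of_nonneg_left (nn n) (by positivity)
    linarith
  have h2 : (0 : ℝ) ≤ phi 1 0 a b n := Nat.cast_nonneg _
  linarith

lemma K2_le (J q b n : ℕ) (hJ : 1 ≤ J) (hq : 1 ≤ q) (hb : 1 ≤ b) :
    (q : ℝ) * K2 (J * q * b) b n ≤ (n : ℝ) * (n - 1) / (2 * (J * b)) := by
  have h := K2_le' (J * q * b) b n (by omega)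
  have h2 : (0 : ℝ) ≤ phi 0 1 (J * q * b) b n := Nat.cast_nonneg _
  have hq' : (0 : ℝ) < q := by exact_mod_cast hq
  have hb' : (0 : ℝ) < b := by exact_mod_cast hb
  have hJ' : (0 : ℝ) < J := by exact_mod_cast hJ
  have h3 : (q : ℝ) * K2 (J * q * b) b n ≤ q * ((n : ℝ) * (n - 1) / (2 * (((J * q * b : ℕ) : ℝ) + 1))) :=
    mul_le_mul_of_nonneg_left (by linarith) hq'.le
  refine h3.trans ?_
  rw [← mul_div_assoc, div_le_div_iff₀ (by positivity) (by positivity)]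
  push_cast
  have := nn n
  nlinarith

lemma K1_le_n (hphi : S_phi) (a b n : ℕ) (hab : 1 ≤ a + b) (hn : n ≤ (a + 1) * (b + 1)) : K1 a b n ≤ n := by
  have h := K1_le' a b n hab
  obtain ⟨-, h2, -, -⟩ := hphi a b n hn
  linarith

lemma K2_le_n (hphi : S_phi) (a b n : ℕ) (hab : 1 ≤ a + b) (hn : n ≤ (a + 1) * (b + 1)) : K2 a b n ≤ n := by
  have h := K2_le' a b n hab
  obtain ⟨-, -, -, h2⟩ := hphi a b n hn
  linarith

/-- the weighted minimum of few points -/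
lemma phi_small (Θ b n : ℕ) (hn : n ≤ Θ) (hN : n ≤ (Θ * b + 1) * (b + 1)) :
    (n : ℝ) * (n - 1) / 2 ≤ phi 1 Θ (Θ * b) b n := by
  classical
  have hne : {m : ℕ | ∃ T : Finset (II (Θ * b) b), T.card = n ∧ m = ∑ x ∈ T, (1 * (x.1 : ℕ) + Θ * (x.2 : ℕ))}.Nonempty := by
    have hc : n ≤ (univ : Finset (II (Θ * b) b)).card := by
      rw [card_univ]
      unfold II
      rw [Fintype.card_prod, Fintype.card_fin, Fintype.card_fin]
      exact hN
    obtain ⟨T, -, hT⟩ := exists_subset_card_eq hc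
    exact ⟨_, T, hT, rfl⟩
  have hmem := Nat.sInf_mem hne
  obtain ⟨T, hT, hT2⟩ := hmem
  have h1 := Pool.Agent.Q198.SU.thr_small Θ (Θ * b) b n hn T
  rw [hT] at h1
  have h2 : phi 1 Θ (Θ * b) b n = ∑ x ∈ T, (1 * (x.1 : ℕ) + Θ * (x.2 : ℕ)) := hT2
  rw [h2]
  have h3 : 2 * ((n : ℝ) * n) ≤ 2 * ((∑ x ∈ T, (1 * (x.1 : ℕ) + Θ * (x.2 : ℕ)) : ℕ) : ℝ) + n * (n + 1) := by
    exact_mod_cast h1
  linarith

/-- the gain against the losses -/
lemma g_ge (hnum : S_numP) (hphi : S_phi) (J q ν b m : ℕ) (hJ : 2 ≤ J) (hν : 1 ≤ ν) (hb : 1000 * ν ^ 2 ≤ b)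
    (hq : 1000 * ν ≤ q) (hm1 : 1 ≤ m) (hm : 2 * m ≤ (J * q * b + 1) * (b + 1)) :
    ((J : ℝ) * q) * ((b : ℝ) / (48 * (((J * q * b + 1) * (b + 1) : ℕ) : ℝ))) * (m * ((m : ℝ) - 1)) +
      (J : ℝ) * ν * (K1 (J * q * b) b m + q * K2 (J * q * b) b m) ≤
      gam (J * q * b) b (J * q) m + J * ν / (2 * b) * (m * min ((m : ℝ) - 1) (16 * J * ν)) := by
  have hν2 : 1 ≤ ν ^ 2 := Nat.one_le_pow _ _ hν
  have hb1 : 1 ≤ b := by omega
  have hq1 : 1 ≤ q := by omega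
  have hb' : (1 : ℝ) ≤ b := by exact_mod_cast hb1
  have hJ' : (2 : ℝ) ≤ J := by exact_mod_cast hJ
  have hν' : (1 : ℝ) ≤ ν := by exact_mod_cast hν
  have hq' : (1 : ℝ) ≤ q := by exact_mod_cast hq1
  have hbR : (1000 : ℝ) * (ν : ℝ) ^ 2 ≤ b := by exact_mod_cast hb
  have hqR : (1000 : ℝ) * (ν : ℝ) ≤ q := by exact_mod_cast hq
  have hmR : (1 : ℝ) ≤ m := by exact_mod_cast hm1
  have hmN : m ≤ (J * q * b + 1) * (b + 1) := by omega
  obtain ⟨p1, -, p3, -⟩ := hphi (J * q * b) b m hmN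
  have hnn := nn m
  have hmm0 : (0 : ℝ) ≤ m * min ((m : ℝ) - 1) (16 * J * ν) :=
    mul_nonneg (by positivity) (le_min (by linarith) (by positivity))
  -- unweighted minima
  have p3' : ((J : ℝ) * q) * phi 0 1 (J * q * b) b m ≤ m * (m - 1) / (2 * b) := by
    have h1 := mul_le_mul_of_nonneg_left p3 (by positivity : (0 : ℝ) ≤ (J : ℝ) * q)
    refine le_trans h1 ?_
    rw [← mul_div_assoc, div_le_div_iff₀ (by positivity) (by positivity)]
    push_cast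
    nlinarith
  have p1' : (phi 1 0 (J * q * b) b m : ℝ) ≤ m * (m - 1) / (2 * b) := by
    refine le_trans p1 ?_
    apply div_le_div_of_nonneg_left hnn (by positivity)
    linarith
  -- the first coefficient
  have hco : ((J : ℝ) * q) * ((b : ℝ) / (48 * (((J * q * b + 1) * (b + 1) : ℕ) : ℝ))) * (m * ((m : ℝ) - 1)) ≤
      1 / 48 * (m * (m - 1)) / b := by
    have h1 : ((J : ℝ) * q) * ((b : ℝ) / (48 * (((J * q * b + 1) * (b + 1) : ℕ) : ℝ))) ≤ 1 / 48 / b := by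
      rw [← mul_div_assoc, div_div, div_le_div_iff₀ (by positivity) (by positivity)]
      push_cast
      have : 0 ≤ (J : ℝ) * q * b := by positivity
      nlinarith
    have h2 := mul_le_mul_of_nonneg_right h1 hnn
    refine le_trans h2 (le_of_eq ?_)
    ring
  have hgam : gam (J * q * b) b (J * q) m = (phi 1 (J * q) (J * q * b) b m : ℝ) - phi 1 0 (J * q * b) b m -
      ((J : ℝ) * q) * phi 0 1 (J * q * b) b m := by
    unfold gam
    push_cast
    ring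
  rw [hgam]
  have hk1a := K1_le (J * q * b) b m hb1
  have hk1b := K1_le_n hphi (J * q * b) b m (by omega) hmN
  have hk2a := K2_le J q b m (by omega) hq1 hb1
  have hk2b := K2_le_n hphi (J * q * b) b m (by omega) hmN
  rcases Nat.lt_or_ge (16 * J * ν) m with hc | hc
  · have h0 := hnum J q ν b m hJ hν hb hq hc hm
    have h1 : (J : ℝ) * ν * (q * K2 (J * q * b) b m) ≤ ν * min ((J : ℝ) * q * m) (m * (m - 1) / (2 * b)) := by
      rw [mul_min_of_nonneg _ _ (by positivity)]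
      apply le_min
      · have := mul_le_mul_of_nonneg_left hk2b (by positivity : (0 : ℝ) ≤ (J : ℝ) * ν * q)
        nlinarith
      · have := mul_le_mul_of_nonneg_left hk2a (by positivity : (0 : ℝ) ≤ (J : ℝ) * ν)
        refine this.trans (le_of_eq ?_)
        field_simp
    have h2 : (J : ℝ) * ν * K1 (J * q * b) b m ≤ J * ν * m :=
      mul_le_mul_of_nonneg_left hk1b (by positivity)
    have h3 : 0 ≤ (J : ℝ) * ν / (2 * b) * (m * min ((m : ℝ) - 1) (16 * J * ν)) := mul_nonneg (by positivity) hmm0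
    have e49 : (49 : ℝ) / 48 * (m * (m - 1)) / b = m * (m - 1) / (2 * b) + m * (m - 1) / (2 * b) + 1 / 48 * (m * (m - 1)) / b := by
      field_simp
      ring
    linarith
  · have hΘm : m ≤ J * q := by
      calc m ≤ 16 * J * ν := hc
        _ = J * (16 * ν) := by ring
        _ ≤ J * q := Nat.mul_le_mul_left _ (by omega)
    have h0 := phi_small (J * q) b m hΘm hmN
    have hcR : (m : ℝ) ≤ 16 * J * ν := by exact_mod_cast hc
    rw [min_eq_left (by linarith)]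
    have h1 : (J : ℝ) * ν * K1 (J * q * b) b m ≤ J * ν / (2 * b) * (m * ((m : ℝ) - 1)) := by
      have := mul_le_mul_of_nonneg_left hk1a (by positivity : (0 : ℝ) ≤ (J : ℝ) * ν)
      refine this.trans (le_of_eq ?_)
      field_simp
    have h2 : (J : ℝ) * ν * (q * K2 (J * q * b) b m) ≤ ν / (2 * b) * (m * ((m : ℝ) - 1)) := by
      have := mul_le_mul_of_nonneg_left hk2a (by positivity : (0 : ℝ) ≤ (J : ℝ) * ν)
      refine this.trans (le_of_eq ?_)
      field_simp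
    have hb2 : (ν : ℝ) / (2 * b) ≤ 1 / 2000 := by
      rw [div_le_div_iff₀ (by positivity) (by norm_num)]
      nlinarith
    have hb3 : (1 : ℝ) / b ≤ 1 / 1000 := by
      rw [div_le_div_iff₀ (by positivity) (by norm_num)]
      nlinarith
    have h3 : ν / (2 * b) * (m * ((m : ℝ) - 1)) ≤ 1 / 2000 * (m * ((m : ℝ) - 1)) := mul_le_mul_of_nonneg_right hb2 hnn
    have h4 : 1 / b * (m * ((m : ℝ) - 1)) ≤ 1 / 1000 * (m * ((m : ℝ) - 1)) := mul_le_mul_of_nonneg_right hb3 hnn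
    have e1 : (m : ℝ) * (m - 1) / (2 * b) = 1 / 2 * (1 / b * (m * ((m : ℝ) - 1))) := by
      field_simp
    have e2 : 1 / 48 * ((m : ℝ) * (m - 1)) / b = 1 / 48 * (1 / b * (m * ((m : ℝ) - 1))) := by
      field_simp
    rw [e1] at p1' p3'
    rw [e2] at hco
    linarith

/-- the pure numerical contradiction -/
lemma num_falseP {J q b N D η ν Q C₀ ℰ cS c X G Y KS KG gS : ℝ} (hJ : 2 ≤ J) (hq : 1 ≤ q) (hb : 1 ≤ b) (hη : 0 < η) (hν : 1 ≤ ν)
    (hQ : 1 ≤ Q) (hD : 0 < D) (hℰ : 0 < ℰ) (hN1 : J * q * b ^ 2 ≤ N) (hN2 : N ≤ 4 * (J * q) * b ^ 2)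
    (hcS : cS ≤ Q * ℰ) (hcSc : cS * c ≤ C₀ * N * ℰ)
    (hJη : 2000 * ν ^ 2 * C₀ ≤ J * b * η) (hDη : 10 ^ 5 * J * ν ≤ D * η) (hqη : 10 ^ 6 * J * ν ^ 2 * D ≤ q * η)
    (hQη : 10 ^ 4 * Q ≤ q * η) (hX : η * N ^ 2 * ℰ / 2 ≤ X) (hG : G ≤ 4 * N ^ 2 * ℰ / D)
    (hY : Y ≤ 16 * J * ν * N * (33 * D * ℰ) + 17 * (4 * N ^ 2 * ℰ / D)) (hKG : KG ≤ 1 / b * G)
    (h1 : J * q * (b / (48 * N)) * X + J * ν * KS ≤ gS + J * ν / (2 * b) * Y)
    (h2 : gS ≤ cS * (q * (ν ^ 2 * c) + 1 + J * q) + J * ν * (KG + KS)) : False := by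
  have hb0 : 0 < b := by linarith
  have hJ0 : 0 < J := by linarith
  have hq0 : 0 < q := by linarith
  have hN0 : 0 < N := lt_of_lt_of_le (by positivity) hN1
  have hν0 : 0 < ν := by linarith
  have hQ0 : 0 < Q := by linarith
  have hb1 : 1 ≤ b ^ 2 := by nlinarith
  have hqN : q ≤ N := by
    refine le_trans ?_ hN1
    have : q * 1 ≤ q * (J * b ^ 2) := mul_le_mul_of_nonneg_left (by nlinarith) hq0.le
    nlinarith
  obtain ⟨P, hP⟩ : ∃ P : ℝ, P = J * q * b * N * ℰ := ⟨_, rfl⟩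
  have hP0 : 0 < P := by rw [hP]; positivity
  -- left side
  have a1 : P * η / 96 ≤ J * q * (b / (48 * N)) * X := by
    have h2 : J * q * (b / (48 * N)) * (η * N ^ 2 * ℰ / 2) ≤ J * q * (b / (48 * N)) * X :=
      mul_le_mul_of_nonneg_left hX (by positivity)
    refine le_trans (le_of_eq ?_) h2
    rw [hP]
    field_simp
    ring
  have a2 : q * ν ^ 2 * (cS * c) ≤ P * η / 2000 := by
    have e1 : q * ν ^ 2 * (cS * c) ≤ q * ν ^ 2 * (C₀ * N * ℰ) := mul_le_mul_of_nonneg_left hcSc (by positivity)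
    have e2 : (2000 * ν ^ 2 * C₀) * (q * N * ℰ) ≤ (J * b * η) * (q * N * ℰ) :=
      mul_le_mul_of_nonneg_right hJη (by positivity)
    rw [hP]
    nlinarith
  have a3 : cS * (1 + J * q) ≤ P * η / 5000 := by
    have e1 : cS * (1 + J * q) ≤ Q * ℰ * (1 + J * q) := mul_le_mul_of_nonneg_right hcS (by positivity)
    have e2 : Q * ℰ * (1 + J * q) ≤ Q * ℰ * (2 * (J * q)) := by
      apply mul_le_mul_of_nonneg_left _ (by positivity)
      nlinarith
    have e3 : (10 ^ 4 * Q) * (ℰ * (J * q)) ≤ (q * η) * (ℰ * (J * q)) := mul_le_mul_of_nonneg_right hQη (by positivity)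
    have e4 : q * (η * ℰ * (J * q)) ≤ (N * b) * (η * ℰ * (J * q)) := by
      apply mul_le_mul_of_nonneg_right _ (by positivity)
      nlinarith
    rw [hP]
    nlinarith
  have aD : J * ν * (4 * N ^ 2 * ℰ / D) / b ≤ 16 * (P * η / 10 ^ 5) := by
    have e1 : J * ν * (4 * N ^ 2 * ℰ / D) / b = (4 * (J * ν) * N * ℰ) * N / (b * D) := by
      field_simp
    rw [e1, div_le_iff₀ (by positivity)]
    have e2 : (4 * (J * ν) * N * ℰ) * N ≤ (4 * (J * ν) * N * ℰ) * (4 * (J * q) * b ^ 2) :=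
      mul_le_mul_of_nonneg_left hN2 (by positivity)
    have e3 : (10 ^ 5 * J * ν) * (J * q * b ^ 2 * N * ℰ) ≤ (D * η) * (J * q * b ^ 2 * N * ℰ) :=
      mul_le_mul_of_nonneg_right hDη (by positivity)
    rw [hP]
    nlinarith
  have a4 : J * ν * KG ≤ 16 * (P * η / 10 ^ 5) := by
    have e1 : J * ν * KG ≤ J * ν * (1 / b * (4 * N ^ 2 * ℰ / D)) := by
      apply mul_le_mul_of_nonneg_left _ (by positivity)
      exact hKG.trans (mul_le_mul_of_nonneg_left hG (by positivity))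
    refine e1.trans (le_trans (le_of_eq ?_) aD)
    ring
  have a5 : J * ν / (2 * b) * Y ≤ 264 * (P * η / 10 ^ 6) + 17 / 2 * (16 * (P * η / 10 ^ 5)) := by
    have e1 : J * ν / (2 * b) * Y ≤ J * ν / (2 * b) * (16 * J * ν * N * (33 * D * ℰ) + 17 * (4 * N ^ 2 * ℰ / D)) :=
      mul_le_mul_of_nonneg_left hY (by positivity)
    have e2 : J * ν / (2 * b) * (16 * J * ν * N * (33 * D * ℰ) + 17 * (4 * N ^ 2 * ℰ / D)) =
        264 * ((J * ν ^ 2 * D) * (J * N * ℰ) / b) + 17 / 2 * (J * ν * (4 * N ^ 2 * ℰ / D) / b) := by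
      field_simp
      ring
    have e3 : (J * ν ^ 2 * D) * (J * N * ℰ) / b ≤ P * η / 10 ^ 6 := by
      rw [div_le_iff₀ hb0]
      have e4 : (10 ^ 6 * J * ν ^ 2 * D) * (J * N * ℰ) ≤ (q * η) * (J * N * ℰ) := mul_le_mul_of_nonneg_right hqη (by positivity)
      have e5 : 1 * (q * η * (J * N * ℰ)) ≤ b ^ 2 * (q * η * (J * N * ℰ)) := mul_le_mul_of_nonneg_right hb1 (by positivity)
      rw [hP]
      nlinarith
    rw [e2] at e1
    linarith
  have hPη : 0 < P * η := by positivity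
  nlinarith

/-- the contradiction for given parameters -/
theorem ncore (hnum : S_numP) (hphi : S_phi) (hlsq : S_lsq) (J q b n d ν : ℕ) (c' η : ℝ) (hd : 2 ≤ d)
    (hν : 1 ≤ ν) (hc : 0 < c') (hη : 0 < η) (hJ2 : 2 ≤ J) (hb1000 : 1000 * ν ^ 2 ≤ b) (hq1000 : 1000 * ν ≤ q)
    (C₀ : ℕ) (hJη : 2000 * (ν : ℝ) ^ 2 * C₀ ≤ J * b * η) (hn1 : 8 ≤ c' * (d : ℝ) ^ n)
    (hDη : 10 ^ 5 * (J : ℝ) * ν ≤ (d : ℝ) ^ n * η) (hqη : 10 ^ 6 * (J : ℝ) * (ν : ℝ) ^ 2 * (d : ℝ) ^ n ≤ q * η)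
    (hQη : 10 ^ 4 * ((ν.factorial : ℕ) : ℝ) ≤ q * η)
    (A : Type u) (T₀ S : Finset A) (hS : S ⊆ T₀) (hSne : S.Nonempty) (Γ : Type u) [Fintype Γ]
      (e : A → ℕ) (he : ∀ t ∈ T₀, 1 ≤ e t ∧ e t ≤ ν.factorial)
      (R : A → Γ → ℕ) (En : A → Γ → ℝ) (M c : ℕ)
      (o : A → Γ → II (J * q * b) b → II (J * q * b) b → ℤ)
      (ho : ∀ t ∈ T₀, ∀ g i i', i ≠ i' → 0 ≤ o t g i i' ∧ o t g i i' ≤ M)
      (hzero : ∑ t ∈ T₀, ∑ g, En t g / e t = 0)
      (hlow : ∀ t ∈ T₀, ∀ g, -(4 * (((J * q * b + 1) * (b + 1) : ℕ) : ℝ) ^ 2 * R t g /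
        (d : ℝ) ^ n) ≤ En t g)
      (hgood : ∀ t ∈ T₀, t ∉ S → ∀ g, En t g = ∑ i, ∑ i' ∈ univ.erase i, (o t g i i' : ℝ))
      (hR : ∀ t ∈ S, ∃ g, 1 ≤ R t g)
      (hcnt : ∀ t ∈ S, ∀ g i, 2 * cnt (o t g) 1 i ≤ (J * q * b + 1) * (b + 1))
      (hen : ∀ t ∈ S, ∀ g, 1 ≤ R t g →
        En t g ≤ c' * (((J * q * b + 1) * (b + 1) : ℕ) : ℝ) ^ 2 * R t g →
        η * (((J * q * b + 1) * (b + 1) : ℕ) : ℝ) ^ 2 * R t g ≤
          ∑ i, ∑ i' ∈ univ.erase i, (o t g i i' : ℝ))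
      (htr : ∀ t ∈ S, ∀ g, ∑ i, ∑ i' ∈ univ.erase i,
          max 0 ((o t g i i' : ℝ) - 33 * (d : ℝ) ^ n * R t g) ≤
        17 * (En t g + 4 * (((J * q * b + 1) * (b + 1) : ℕ) : ℝ) ^ 2 * R t g / (d : ℝ) ^ n))
      (hcC : (S.card : ℝ) * c ≤ C₀ * (((J * q * b + 1) * (b + 1) : ℕ) : ℝ) *
        ∑ t ∈ S, ∑ g, (R t g : ℝ) / e t)
      (hmi : ∑ t ∈ S, ∑ g, LS (gam (J * q * b) b (J * q)) M (o t g) / e t ≤
        (S.card : ℝ) * ((q : ℝ) * ((ν : ℝ) ^ 2 * c) + 1 + J * (q : ℝ)) +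
          J * ν * ∑ t ∈ T₀, ∑ g, (LS (K1 (J * q * b) b) M (o t g) +
            (q : ℝ) * LS (K2 (J * q * b) b) M (o t g)) / e t) : False := by
  classical
  have hν2 : 1 ≤ ν ^ 2 := Nat.one_le_pow _ _ hν
  have hb1 : 1 ≤ b := by omega
  have hq1 : 1 ≤ q := by omega
  have hcardII : Fintype.card (II (J * q * b) b) = (J * q * b + 1) * (b + 1) := by
    unfold II
    rw [Fintype.card_prod, Fintype.card_fin, Fintype.card_fin]
  -- abbreviations
  set N : ℝ := (((J * q * b + 1) * (b + 1) : ℕ) : ℝ) with hNdef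
  have hd0 : (0 : ℝ) < (d : ℝ) ^ n := by
    have : (0 : ℝ) < d := by exact_mod_cast (by omega : 0 < d)
    positivity
  have hJ' : (2 : ℝ) ≤ J := by exact_mod_cast hJ2
  have hb' : (1 : ℝ) ≤ b := by exact_mod_cast hb1
  have hq' : (1 : ℝ) ≤ q := by exact_mod_cast hq1
  have hν' : (1 : ℝ) ≤ ν := by exact_mod_cast hν
  have hN1 : (J : ℝ) * q * (b : ℝ) ^ 2 ≤ N := by
    rw [hNdef]
    push_cast
    have : 0 ≤ (J : ℝ) * q * b := by positivity
    nlinarith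
  have hN2 : N ≤ 4 * ((J : ℝ) * q) * (b : ℝ) ^ 2 := by
    rw [hNdef]
    push_cast
    have h1 : 1 ≤ (J : ℝ) * q * b := by
      have : (1 : ℝ) ≤ (J : ℝ) * q := by nlinarith
      nlinarith
    nlinarith [mul_nonneg (by linarith : (0:ℝ) ≤ (J : ℝ) * q * b - 1) (by linarith : (0:ℝ) ≤ (b:ℝ) - 1)]
  have hN0 : 0 < N := lt_of_lt_of_le (by positivity) hN1
  have hsplit : ∀ f : A → ℝ, ∑ t ∈ T₀, f t = ∑ t ∈ T₀ \ S, f t + ∑ t ∈ S, f t := fun f =>
    (Finset.sum_sdiff hS).symm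
  have hepos : ∀ t ∈ T₀, (0 : ℝ) < e t := fun t ht => by exact_mod_cast (he t ht).1
  -- the sum of the contact orders
  set O : A → Γ → ℝ := fun t g => ∑ l, ∑ l' ∈ univ.erase l, (o t g l l' : ℝ) with hO
  have hO0 : ∀ t ∈ T₀, ∀ g, 0 ≤ O t g := by
    intro t ht g
    refine Finset.sum_nonneg fun l _ => Finset.sum_nonneg fun l' hl' => ?_
    have := (ho t ht g l l' (Finset.ne_of_mem_erase hl').symm).1
    exact_mod_cast this
  -- the energy of the bad places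
  set ℰ : ℝ := ∑ t ∈ S, ∑ g, (R t g : ℝ) / e t with hℰ
  have hcS : (S.card : ℝ) ≤ ((ν.factorial : ℕ) : ℝ) * ℰ := by
    have h1 : ∑ t ∈ S, (1 : ℝ) ≤ ∑ t ∈ S, ((ν.factorial : ℕ) : ℝ) * ∑ g, (R t g : ℝ) / e t := by
      refine Finset.sum_le_sum fun t ht => ?_
      obtain ⟨g, hg⟩ := hR t ht
      have h2 : (R t g : ℝ) / e t ≤ ∑ g, (R t g : ℝ) / e t :=
        Finset.single_le_sum (f := fun g => (R t g : ℝ) / e t)
          (fun g _ => by positivity) (Finset.mem_univ g)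
      have h3 : (1 : ℝ) / e t ≤ (R t g : ℝ) / e t :=
        div_le_div_of_nonneg_right (by exact_mod_cast hg) (hepos t (hS ht)).le
      have h4 : (1 : ℝ) ≤ ((ν.factorial : ℕ) : ℝ) * (1 / e t) := by
        rw [mul_one_div, le_div_iff₀ (hepos t (hS ht)), one_mul]
        exact_mod_cast (he t (hS ht)).2
      have h5 : ((ν.factorial : ℕ) : ℝ) * (1 / e t) ≤
          ((ν.factorial : ℕ) : ℝ) * ∑ g, (R t g : ℝ) / e t :=
        mul_le_mul_of_nonneg_left (h3.trans h2) (by positivity)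
      linarith
    rw [← Finset.mul_sum] at h1
    simpa using h1
  have hcard : (1 : ℝ) ≤ S.card := by exact_mod_cast hSne.card_pos
  have hfac : (1 : ℝ) ≤ ((ν.factorial : ℕ) : ℝ) := by exact_mod_cast ν.factorial_pos
  have hℰ0 : 0 < ℰ := by
    by_contra hcon
    push Not at hcon
    nlinarith
  -- the energies of the good places
  have hlowS : -(4 * N ^ 2 * ℰ / (d : ℝ) ^ n) ≤ ∑ t ∈ S, ∑ g, En t g / e t := by
    have h1 : ∑ t ∈ S, ∑ g, -(4 * N ^ 2 * R t g / (d : ℝ) ^ n) / e t ≤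
        ∑ t ∈ S, ∑ g, En t g / e t :=
      Finset.sum_le_sum fun t ht => Finset.sum_le_sum fun g _ =>
        div_le_div_of_nonneg_right (hlow t (hS ht) g) (hepos t (hS ht)).le
    refine le_trans (le_of_eq ?_) h1
    rw [hℰ, Finset.mul_sum, Finset.sum_div, ← Finset.sum_neg_distrib]
    refine Finset.sum_congr rfl fun t _ => ?_
    rw [Finset.mul_sum, Finset.sum_div, ← Finset.sum_neg_distrib]
    refine Finset.sum_congr rfl fun g _ => ?_
    ring
  have hz := hzero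
  rw [hsplit] at hz
  have hG : ∑ t ∈ T₀ \ S, ∑ g, En t g / e t ≤ 4 * N ^ 2 * ℰ / (d : ℝ) ^ n := by linarith
  have hG0 : 0 ≤ ∑ t ∈ T₀ \ S, ∑ g, En t g / e t := by
    refine Finset.sum_nonneg fun t ht => Finset.sum_nonneg fun g _ => ?_
    rw [Finset.mem_sdiff] at ht
    rw [hgood t ht.1 ht.2 g]
    exact div_nonneg (hO0 t ht.1 g) (hepos t ht.1).le
  -- the contact orders of the bad places
  have hX : η * N ^ 2 * ℰ / 2 ≤ ∑ t ∈ S, ∑ g, O t g / e t := by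
    have h1 : ∑ t ∈ S, ∑ g, (η * N ^ 2 * R t g - η / c' * (En t g + 4 * N ^ 2 * R t g / (d : ℝ) ^ n)) /
        e t ≤ ∑ t ∈ S, ∑ g, O t g / e t := by
      refine Finset.sum_le_sum fun t ht => Finset.sum_le_sum fun g _ =>
        div_le_div_of_nonneg_right ?_ (hepos t (hS ht)).le
      have hlow' := hlow t (hS ht) g
      have hO0' := hO0 t (hS ht) g
      have hpos : 0 ≤ En t g + 4 * N ^ 2 * R t g / (d : ℝ) ^ n := by linarith
      rcases Nat.eq_zero_or_pos (R t g) with hR0 | hR0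
      · rw [hR0]
        rw [hR0] at hpos
        have := mul_nonneg (by positivity : 0 ≤ η / c') hpos
        simp only [Nat.cast_zero, mul_zero] at this ⊢
        linarith
      · rcases le_or_gt (En t g) (c' * N ^ 2 * R t g) with h2 | h2
        · have h3 := hen t ht g hR0 h2
          have := mul_nonneg (by positivity : 0 ≤ η / c') hpos
          have h4 : O t g = ∑ l, ∑ l' ∈ univ.erase l, (o t g l l' : ℝ) := rfl
          linarith
        · have h3 : η / c' * (c' * N ^ 2 * R t g) ≤ η / c' * (En t g +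
              4 * N ^ 2 * R t g / (d : ℝ) ^ n) := by
            apply mul_le_mul_of_nonneg_left _ (by positivity)
            have : 0 ≤ 4 * N ^ 2 * R t g / (d : ℝ) ^ n := by positivity
            linarith
          have h4 : η / c' * (c' * N ^ 2 * R t g) = η * N ^ 2 * R t g := by
            field_simp
          linarith
    refine le_trans ?_ h1
    have h5 : ∑ t ∈ S, ∑ g, (η * N ^ 2 * R t g - η / c' *
        (En t g + 4 * N ^ 2 * R t g / (d : ℝ) ^ n)) / e t =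
        η * N ^ 2 * ℰ - η / c' * (∑ t ∈ S, ∑ g, En t g / e t + 4 * N ^ 2 / (d : ℝ) ^ n * ℰ) := by
      rw [hℰ, Finset.mul_sum, Finset.mul_sum, ← Finset.sum_add_distrib, Finset.mul_sum,
        ← Finset.sum_sub_distrib]
      refine Finset.sum_congr rfl fun t _ => ?_
      rw [Finset.mul_sum, Finset.mul_sum, ← Finset.sum_add_distrib, Finset.mul_sum,
        ← Finset.sum_sub_distrib]
      refine Finset.sum_congr rfl fun g _ => ?_
      ring
    rw [h5]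
    have h6 : ∑ t ∈ S, ∑ g, En t g / e t ≤ 0 := by linarith
    have h7 : η / c' * (∑ t ∈ S, ∑ g, En t g / e t + 4 * N ^ 2 / (d : ℝ) ^ n * ℰ) ≤
        η / c' * (4 * N ^ 2 / (d : ℝ) ^ n * ℰ) :=
      mul_le_mul_of_nonneg_left (by linarith) (by positivity)
    have h8 : η / c' * (4 * N ^ 2 / (d : ℝ) ^ n * ℰ) ≤ η * N ^ 2 * ℰ / 2 := by
      have h9 : η / c' * (4 * N ^ 2 / (d : ℝ) ^ n * ℰ) =
          (4 * η * N ^ 2 * ℰ) / (c' * (d : ℝ) ^ n) := by
        field_simp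
      rw [h9, div_le_div_iff₀ (by positivity) (by norm_num)]
      have h10 : 8 * (η * N ^ 2 * ℰ) ≤ c' * (d : ℝ) ^ n * (η * N ^ 2 * ℰ) :=
        mul_le_mul_of_nonneg_right hn1 (by positivity)
      linarith
    linarith
  -- the truncated sums at the bad places
  have hY : ∑ t ∈ S, ∑ g, LS (fun m => (m : ℝ) * min ((m : ℝ) - 1) (16 * J * ν)) M (o t g) / e t ≤
      16 * J * ν * N * (33 * (d : ℝ) ^ n * ℰ) + 17 * (4 * N ^ 2 * ℰ / (d : ℝ) ^ n) := by
    have h1 : ∑ t ∈ S, ∑ g, LS (fun m => (m : ℝ) * min ((m : ℝ) - 1) (16 * J * ν)) M (o t g) / e t ≤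
        ∑ t ∈ S, ∑ g, (16 * J * ν * N * (33 * (d : ℝ) ^ n * R t g) +
          17 * (En t g + 4 * N ^ 2 * R t g / (d : ℝ) ^ n)) / e t := by
      refine Finset.sum_le_sum fun t ht => Finset.sum_le_sum fun g _ =>
        div_le_div_of_nonneg_right ?_ (hepos t (hS ht)).le
      have h2 := LS_trunc (o t g) M (33 * d ^ n * R t g) (16 * (J : ℝ) * ν) (by positivity)
      have h3 := htr t ht g
      rw [hcardII] at h2
      push_cast at h2 h3
      refine h2.trans ?_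
      have h4 : 16 * (J : ℝ) * ν * (((J : ℝ) * q * b + 1) * (b + 1)) * (33 * (d : ℝ) ^ n * R t g) =
          16 * J * ν * N * (33 * (d : ℝ) ^ n * R t g) := by
        rw [hNdef]
        push_cast
        ring
      rw [h4]
      linarith
    refine h1.trans ?_
    have h5 : ∑ t ∈ S, ∑ g, (16 * J * ν * N * (33 * (d : ℝ) ^ n * R t g) +
          17 * (En t g + 4 * N ^ 2 * R t g / (d : ℝ) ^ n)) / e t =
        16 * J * ν * N * (33 * (d : ℝ) ^ n * ℰ) + 17 * (∑ t ∈ S, ∑ g, En t g / e t + 4 * N ^ 2 * ℰ / (d : ℝ) ^ n) := by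
      have e1 : 16 * J * ν * N * (33 * (d : ℝ) ^ n * ℰ) = (16 * J * ν * N * (33 * (d : ℝ) ^ n)) * ℰ := by ring
      have e2 : 4 * N ^ 2 * ℰ / (d : ℝ) ^ n = (4 * N ^ 2 / (d : ℝ) ^ n) * ℰ := by ring
      rw [e1, e2, hℰ, Finset.mul_sum, Finset.mul_sum, ← Finset.sum_add_distrib, Finset.mul_sum, ← Finset.sum_add_distrib]
      refine Finset.sum_congr rfl fun t _ => ?_
      rw [Finset.mul_sum, Finset.mul_sum, ← Finset.sum_add_distrib, Finset.mul_sum, ← Finset.sum_add_distrib]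
      refine Finset.sum_congr rfl fun g _ => ?_
      ring
    rw [h5]
    have h6 : ∑ t ∈ S, ∑ g, En t g / e t ≤ 0 := by linarith
    linarith
  -- the gain at the bad places
  have hgam : (J : ℝ) * q * ((b : ℝ) / (48 * N)) * ∑ t ∈ S, ∑ g, O t g / e t +
      J * ν * ∑ t ∈ S, ∑ g, (LS (K1 (J * q * b) b) M (o t g) + (q : ℝ) * LS (K2 (J * q * b) b) M (o t g)) / e t ≤
      ∑ t ∈ S, ∑ g, LS (gam (J * q * b) b (J * q)) M (o t g) / e t +
        J * ν / (2 * b) * ∑ t ∈ S, ∑ g, LS (fun m => (m : ℝ) * min ((m : ℝ) - 1) (16 * J * ν)) M (o t g) / e t := by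
    rw [Finset.mul_sum, Finset.mul_sum, ← Finset.sum_add_distrib, Finset.mul_sum, ← Finset.sum_add_distrib]
    refine Finset.sum_le_sum fun t ht => ?_
    rw [Finset.mul_sum, Finset.mul_sum, ← Finset.sum_add_distrib, Finset.mul_sum, ← Finset.sum_add_distrib]
    refine Finset.sum_le_sum fun g _ => ?_
    have h1 : LS (fun m => (J : ℝ) * q * ((b : ℝ) / (48 * N)) * (m * ((m : ℝ) - 1)) +
        (J : ℝ) * ν * (K1 (J * q * b) b m + q * K2 (J * q * b) b m)) M (o t g) ≤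
        LS (fun m => gam (J * q * b) b (J * q) m + J * ν / (2 * b) * ((m : ℝ) * min ((m : ℝ) - 1) (16 * J * ν))) M (o t g) := by
      refine LS_mono fun i hi l => ?_
      have hi1 : 1 ≤ i := (Finset.mem_Icc.mp hi).1
      have hc1' := cnt_mono (o t g) hi1 l
      have hc2 := hcnt t ht g l
      exact g_ge hnum hphi J q ν b _ hJ2 hν hb1000 hq1000 (one_le_cnt _ _ _) (by omega)
    rw [LS_add, LS_smul, LS_smul, LS_add, LS_add, LS_smul, LS_smul, hlsq (II (J * q * b) b) M (o t g) (fun l m hlm =>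
      ho t (hS ht) g l m hlm)] at h1
    have h2 := div_le_div_of_nonneg_right h1 (hepos t (hS ht)).le
    rw [add_div, add_div] at h2
    refine le_trans (le_of_eq ?_) (h2.trans (le_of_eq ?_))
    · rw [hO]
      ring
    · ring
  -- the loss at the good places
  have hkap : ∑ t ∈ T₀ \ S, ∑ g, (LS (K1 (J * q * b) b) M (o t g) + (q : ℝ) * LS (K2 (J * q * b) b) M (o t g)) / e t ≤
      1 / b * ∑ t ∈ T₀ \ S, ∑ g, En t g / e t := by
    rw [Finset.mul_sum]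
    refine Finset.sum_le_sum fun t ht => ?_
    rw [Finset.mul_sum]
    refine Finset.sum_le_sum fun g _ => ?_
    rw [Finset.mem_sdiff] at ht
    have h1 : LS (fun m => K1 (J * q * b) b m + (q : ℝ) * K2 (J * q * b) b m) M (o t g) ≤
        LS (fun m => 1 / (b : ℝ) * ((m : ℝ) * ((m : ℝ) - 1))) M (o t g) := by
      refine LS_mono fun i _ l => ?_
      have k1 := K1_le (J * q * b) b (cnt (o t g) i l) hb1
      have k2 := K2_le J q b (cnt (o t g) i l) (by omega) hq1 hb1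
      have k3 := nn (cnt (o t g) i l)
      have k4 : ((cnt (o t g) i l : ℕ) : ℝ) * ((cnt (o t g) i l : ℕ) - 1) / (2 * (J * b)) ≤
          ((cnt (o t g) i l : ℕ) : ℝ) * ((cnt (o t g) i l : ℕ) - 1) / (2 * b) := by
        apply div_le_div_of_nonneg_left k3 (by positivity)
        nlinarith
      have k5 : ((cnt (o t g) i l : ℕ) : ℝ) * ((cnt (o t g) i l : ℕ) - 1) / (2 * b) +
          ((cnt (o t g) i l : ℕ) : ℝ) * ((cnt (o t g) i l : ℕ) - 1) / (2 * b) =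
          1 / b * (((cnt (o t g) i l : ℕ) : ℝ) * ((cnt (o t g) i l : ℕ) - 1)) := by
        field_simp
        ring
      linarith
    rw [LS_add, LS_smul, LS_smul, hlsq (II (J * q * b) b) M (o t g) (fun l m hlm => ho t ht.1 g l m hlm),
      ← hgood t ht.1 ht.2 g] at h1
    have h2 := div_le_div_of_nonneg_right h1 (hepos t ht.1).le
    refine le_trans h2 (le_of_eq ?_)
    ring
  -- the contradiction
  rw [hsplit (fun t => ∑ g, (LS (K1 (J * q * b) b) M (o t g) + (q : ℝ) * LS (K2 (J * q * b) b) M (o t g)) / e t)] at hmi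
  exact num_falseP hJ' hq' hb' hη hν' hfac hd0 hℰ0 hN1 hN2 hcS hcC hJη hDη hqη hQη hX hG hY hkap hgam hmi

/-- (Q2) -/
theorem ncP (hnum : S_numP) (hphi : S_phi) (hlsq : S_lsq) : S_ncP.{u} := by
  intro l d ν N₁ c' η hl hd hν hc hc1 hη
  refine ⟨1000 * ν ^ 2, by have := Nat.one_le_pow 2 ν hν; omega, ?_⟩
  intro C₀
  have hν2 : 1 ≤ ν ^ 2 := Nat.one_le_pow _ _ hν
  obtain ⟨J, hJ2, hJη⟩ : ∃ J : ℕ, 2 ≤ J ∧ 2000 * (ν : ℝ) ^ 2 * C₀ ≤ J * ((1000 * ν ^ 2 : ℕ) : ℝ) * η := by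
    obtain ⟨m, hm⟩ := exists_nat_ge (2000 * (ν : ℝ) ^ 2 * C₀ / η)
    refine ⟨max 2 m, le_max_left _ _, ?_⟩
    have h1 : (m : ℝ) ≤ ((max 2 m : ℕ) : ℝ) := by exact_mod_cast le_max_right _ _
    rw [div_le_iff₀ hη] at hm
    have h2 : (1 : ℝ) ≤ ((1000 * ν ^ 2 : ℕ) : ℝ) := by exact_mod_cast (by omega : 1 ≤ 1000 * ν ^ 2)
    have h3 : ((max 2 m : ℕ) : ℝ) * 1 * η ≤ ((max 2 m : ℕ) : ℝ) * ((1000 * ν ^ 2 : ℕ) : ℝ) * η := by
      apply mul_le_mul_of_nonneg_right _ hη.le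
      exact mul_le_mul_of_nonneg_left h2 (Nat.cast_nonneg _)
    have h4 : (m : ℝ) * η ≤ ((max 2 m : ℕ) : ℝ) * η := mul_le_mul_of_nonneg_right h1 hη.le
    linarith
  obtain ⟨n, hn1, hn2⟩ : ∃ n : ℕ, 8 ≤ c' * (d : ℝ) ^ n ∧
      10 ^ 5 * (J : ℝ) * ν ≤ (d : ℝ) ^ n * η := by
    obtain ⟨n, hn⟩ := pow_unbounded_of_one_lt (max (8 / c') (10 ^ 5 * (J : ℝ) * ν / η))
      (show (1 : ℝ) < (d : ℝ) by exact_mod_cast (by omega : 1 < d))
    refine ⟨n, ?_, ?_⟩
    · have := lt_of_le_of_lt (le_max_left _ _) hn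
      rw [div_lt_iff₀ hc] at this
      linarith
    · have := lt_of_le_of_lt (le_max_right _ _) hn
      rw [div_lt_iff₀ hη] at this
      linarith
  obtain ⟨r, hr⟩ : ∃ r : ℕ, 1000 * ν + N₁ + d ^ (2 * n) +
      ⌈10 ^ 6 * (J : ℝ) * (ν : ℝ) ^ 2 * (d : ℝ) ^ n / η⌉₊ + ⌈10 ^ 4 * ((ν.factorial : ℕ) : ℝ) / η⌉₊ ≤ l ^ r := by
    refine ⟨_, (Nat.lt_pow_self (by omega : 1 < l)).le⟩
  have hrR1 : 10 ^ 6 * (J : ℝ) * (ν : ℝ) ^ 2 * (d : ℝ) ^ n ≤ ((l ^ r : ℕ) : ℝ) * η := by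
    have h1 := Nat.le_ceil (10 ^ 6 * (J : ℝ) * (ν : ℝ) ^ 2 * (d : ℝ) ^ n / η)
    have h2 : ((⌈10 ^ 6 * (J : ℝ) * (ν : ℝ) ^ 2 * (d : ℝ) ^ n / η⌉₊ : ℕ) : ℝ) ≤ ((l ^ r : ℕ) : ℝ) := by
      exact_mod_cast (by omega : ⌈10 ^ 6 * (J : ℝ) * (ν : ℝ) ^ 2 * (d : ℝ) ^ n / η⌉₊ ≤ l ^ r)
    exact (div_le_iff₀ hη).1 (h1.trans h2)
  have hrR2 : 10 ^ 4 * ((ν.factorial : ℕ) : ℝ) ≤ ((l ^ r : ℕ) : ℝ) * η := by
    have h1 := Nat.le_ceil (10 ^ 4 * ((ν.factorial : ℕ) : ℝ) / η)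
    have h2 : ((⌈10 ^ 4 * ((ν.factorial : ℕ) : ℝ) / η⌉₊ : ℕ) : ℝ) ≤ ((l ^ r : ℕ) : ℝ) := by
      exact_mod_cast (by omega : ⌈10 ^ 4 * ((ν.factorial : ℕ) : ℝ) / η⌉₊ ≤ l ^ r)
    exact (div_le_iff₀ hη).1 (h1.trans h2)
  have hbig : l ^ r ≤ (J * l ^ r * (1000 * ν ^ 2) + 1) * (1000 * ν ^ 2 + 1) := by
    calc l ^ r = 1 * l ^ r * 1 := by ring
      _ ≤ J * l ^ r * (1000 * ν ^ 2) := Nat.mul_le_mul (Nat.mul_le_mul (by omega) le_rfl) (by omega)
      _ ≤ (J * l ^ r * (1000 * ν ^ 2) + 1) * 1 := by omega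
      _ ≤ _ := Nat.mul_le_mul_left _ (by omega)
  refine ⟨J, r, n, hJ2, le_trans (by omega) hbig, le_trans (by omega) hbig, ?_⟩
  intro A T₀ S hS hSne Γ _ hΓ e he R En M c o ho hzero hlow hgood hR hcnt hen htr hcC hmi
  refine ncore hnum hphi hlsq J (l ^ r) (1000 * ν ^ 2) n d ν c' η hd hν hc hη hJ2 le_rfl (by omega) C₀ hJη hn1 hn2 hrR1 hrR2
    A T₀ S hS hSne Γ e he R En M c o ho hzero hlow hgood hR hcnt hen htr hcC ?_
  push_cast at hmi ⊢
  exact hmi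

end Pool.Agent.Q84.SP
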