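import Pool.Agent.Q41.SP.Stm1
import Pool.Agent.Q162.SU.T8

/-!
# Project SP (helper41), job P7 (helper84): the twisted main inequality
-/

set_option autoImplicit false

namespace Pool.Agent.Q84.SP

open Finset Polynomial TensorProduct
open Pool.Agent.Q41.SU Pool.Agent.Q41.SP Pool.Agent.Q162.SU

universe u

section main

variable {k E Λ : Type u} [Field k] [Field E] [Algebra k E] [NormedField Λ] [Algebra k Λ] {t : E} {s : Λ}
  {G : Subgroup (E ≃ₐ[k] E)}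

open Classical in
/-- the bounds of (P3) -/
lemma pairsP [IsUltrametricDist Λ] (hpair : S_pairP.{u}) (hA : IsAmb k Λ s) (pp : PlSys k E Λ t s) (t₀ : k) {a b : ℕ} (Θ M : ℕ)
    (hab : 1 ≤ a + b) (hΘ : 1 ≤ Θ) (x : II a b → E) (hx : Function.Injective x) (m : k → G → Mb E)
    (hdet : ∀ g, (m t₀ g).det ≠ 0) (hden : ∀ g l, (m t₀ g).den (x l) ≠ 0)
    (hint : ∀ (g : G) l, ‖pp.ι t₀ ((g : E ≃ₐ[k] E) ((m t₀ g).app (x l)))‖ ≤ 1) (Φ : Λ →+* Λ) (hΦ : ∀ x, ‖Φ x‖ = ‖x‖ ^ Θ)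
    (g h : G) :
    (∀ y : II a b → Λ, (∀ l, ‖y l‖ ≤ 1) →
      ‖bd a b (fun l => pp.ι t₀ ((g : E ≃ₐ[k] E) (x l))) y‖ ≤ Real.exp (-(A1 pp M x m t₀ g)) ∧
      ‖bd a b y (fun l => Φ (pp.ι t₀ ((g : E ≃ₐ[k] E) (x l))))‖ ≤ Real.exp (-(Θ * B1 pp M x m t₀ g))) ∧
    ‖bd a b (fun l => pp.ι t₀ ((g : E ≃ₐ[k] E) (x l))) (fun l => Φ (pp.ι t₀ ((h : E ≃ₐ[k] E) (x l))))‖ ≤
      Real.exp (-(A1 pp M x m t₀ g + Θ * B1 pp M x m t₀ h + if g = h then C1 pp Θ M x m t₀ g else 0)) := by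
  have key := hpair k E Λ hA.norm_c (pp.ι t₀) (pp.e t₀) (pp.u t₀) (pp.pl t₀) (pp.ι t₀) (pp.e t₀) (pp.u t₀) (pp.pl t₀)
    a b Θ M hab hΘ (fun l => (g : E ≃ₐ[k] E) (x l)) (fun l => (h : E ≃ₐ[k] E) (x l))
    (fun l j e => hx ((g : E ≃ₐ[k] E).injective e)) (fun l j e => hx ((h : E ≃ₐ[k] E).injective e))
    (gM (g : E ≃ₐ[k] E) (m t₀ g)) (gM (h : E ≃ₐ[k] E) (m t₀ h))
    (by rw [gM_det]; exact (_root_.map_ne_zero _).2 (hdet g)) (by rw [gM_det]; exact (_root_.map_ne_zero _).2 (hdet h))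
    (fun l => by rw [gM_den]; exact (_root_.map_ne_zero _).2 (hden g l)) (fun l => by rw [gM_den]; exact (_root_.map_ne_zero _).2 (hden h l))
    (fun l => by rw [gM_app]; exact hint g l) (fun l => by rw [gM_app]; exact hint h l) Φ hΦ
  rw [cvt_eq, cvt_eq, oo_eq, oo_eq] at key
  obtain ⟨k1, k2, k3⟩ := key
  refine ⟨k1, ?_⟩
  by_cases hgh : g = h
  · subst hgh
    rw [if_pos rfl]
    refine k3.trans (le_of_eq ?_)
    congr 2
    unfold A1 B1 C1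
    rw [LS_gam]
    ring
  · rw [if_neg hgh, add_zero]
    refine k2.trans (le_of_eq ?_)
    congr 2
    unfold A1 B1
    ring

/-- the product of the linear factors, evaluated -/
lemma map_Q {A : Type*} [CommRing A] [Algebra k A] (f : E →ₐ[k] A) (S₀ : Finset k) :
    f (aeval t (∏ t₀ ∈ S₀, (Polynomial.X - Polynomial.C t₀))) = ∏ t₀ ∈ S₀, (f t - algebraMap k A t₀) := by
  rw [map_prod, map_prod]
  apply prod_congr rfl
  intro t₀ _
  rw [map_sub, aeval_X, aeval_C, map_sub, AlgHom.commutes]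

lemma LS_K1 {ι : Type*} [Fintype ι] [DecidableEq ι] (a b M : ℕ) (o : ι → ι → ℤ) :
    LS (K1 a b) M o = (a : ℝ) / (2 * (((a : ℝ) + 1) * (b + 1) - 1)) * LS (fun n => (n : ℝ) * (n - 1)) M o -
      LS (fun n => (phi 1 0 a b n : ℝ)) M o := by
  rw [← LS_mul, ← LS_sub]
  rfl

lemma LS_K2 {ι : Type*} [Fintype ι] [DecidableEq ι] (a b M : ℕ) (o : ι → ι → ℤ) :
    LS (K2 a b) M o = (b : ℝ) / (2 * (((a : ℝ) + 1) * (b + 1) - 1)) * LS (fun n => (n : ℝ) * (n - 1)) M o -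
      LS (fun n => (phi 0 1 a b n : ℝ)) M o := by
  rw [← LS_mul, ← LS_sub]
  rfl

end main

theorem miP (hnpol : S_npol.{u}) (hten : S_tenP.{u}) (hev : S_evP.{u}) (hcount : S_countP.{u}) (hpair : S_pairP.{u})
    (hprod : S_prod.{u}) (hlsq : S_lsq) : S_miP.{u} := by
  classical
  intro k E Λ _ _ _ _ _ _ _ t s G _ hA hGal pp S S₀ hSS a b J l r M c _ _ _ ha hb hJ x hx hInt hUnit m hdet hden hmint hM τ hτt hτg hord
  set ν : ℝ := (Fintype.card G : ℝ) with hν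
  obtain ⟨q, hq⟩ : ∃ q : ℕ, q = l ^ r := ⟨_, rfl⟩
  have hq1 : 1 ≤ q := by
    rw [hq]
    exact Nat.one_le_pow _ _ (Fact.out : l.Prime).pos
  have hqR : ((q : ℕ) : ℝ) = (l : ℝ) ^ r := by
    rw [hq]
    push_cast
    rfl
  have : CharP Λ l := charP_of_injective_algebraMap (algebraMap k Λ).injective l
  obtain ⟨Θ, hΘd⟩ : ∃ Θ : ℕ, Θ = J * q := ⟨_, rfl⟩
  have hν1 : 1 ≤ Fintype.card G := Fintype.card_pos
  have hab : 1 ≤ a + b := by omega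
  have hΘ1 : 1 ≤ Θ := by
    rw [hΘd]
    exact Nat.one_le_iff_ne_zero.2 (Nat.mul_ne_zero (by omega) (by omega))
  obtain ⟨V, hV⟩ : ∃ V : k → ℝ, V = fun t₀ => ν * ∑ g : G, A1 pp M x m t₀ g := ⟨_, rfl⟩
  obtain ⟨H, hH⟩ : ∃ H : k → ℝ, H = fun t₀ => ν * ∑ g : G, B1 pp M x m t₀ g := ⟨_, rfl⟩
  obtain ⟨Γ, hΓ⟩ : ∃ Γ : k → ℝ, Γ = fun t₀ => ∑ g : G, C1 pp Θ M x m t₀ g := ⟨_, rfl⟩
  obtain ⟨M₀, hM₀⟩ := hten k E Λ t s G hA hGal pp S₀ a b l r x hInt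
  set M' : ℕ := M₀ + ⌈∑ t₀ ∈ S₀, (|V t₀| + |H t₀|)⌉₊ with hM'
  obtain ⟨F, hF2, hF1, hFev⟩ := hM₀ M' (by omega)
  have hM'V : ∀ t₀ ∈ S₀, 0 ≤ M' + V t₀ ∧ 0 ≤ M' + H t₀ := by
    intro t₀ ht
    have h1 : |V t₀| + |H t₀| ≤ ∑ t₀ ∈ S₀, (|V t₀| + |H t₀|) :=
      single_le_sum (f := fun t₀ => |V t₀| + |H t₀|) (fun t₀ _ => by positivity) ht
    have h2 : ∑ t₀ ∈ S₀, (|V t₀| + |H t₀|) ≤ (⌈∑ t₀ ∈ S₀, (|V t₀| + |H t₀|)⌉₊ : ℝ) := Nat.le_ceil _
    have h3 : ((M' : ℕ) : ℝ) = M₀ + (⌈∑ t₀ ∈ S₀, (|V t₀| + |H t₀|)⌉₊ : ℝ) := by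
      rw [hM']
      push_cast
      ring
    have h4 := neg_abs_le (V t₀)
    have h5 := neg_abs_le (H t₀)
    have h6 := abs_nonneg (V t₀)
    have h7 := abs_nonneg (H t₀)
    have h8 : (0 : ℝ) ≤ M₀ := Nat.cast_nonneg _
    rw [h3]
    constructor <;> linarith
  have hs1 : ‖s‖ ≤ 1 := by
    rw [hA.norm_s]
    exact Real.exp_le_one_iff.2 (by norm_num)
  -- the Frobenius
  obtain ⟨φ, hφ⟩ : ∃ φ : Λ →+* Λ, φ = iterateFrobenius Λ l r := ⟨_, rfl⟩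
  have hφx : ∀ x, φ x = x ^ q := by
    intro x
    rw [hφ, iterateFrobenius_def, hq]
  have hφn : ∀ x, ‖φ x‖ = ‖x‖ ^ q := by
    intro x
    rw [hφx, norm_pow]
  -- the evaluation at a pair (f₁, φ ∘ f₂)
  have hEv : ∀ (f₁ f₂ : E →ₐ[k] Λ), ev F (f₁ t) (φ (f₂ t)) =
      (f₁ (aeval t (∏ t₀ ∈ S₀, (Polynomial.X - Polynomial.C t₀)))) ^ M' *
        (φ (f₂ (aeval t (∏ t₀ ∈ S₀, (Polynomial.X - Polynomial.C t₀))))) ^ M' *
        ∏ g : G, ∏ h : G, bd a b (fun l => f₁ ((g : E ≃ₐ[k] E) (x l))) (fun l => φ (f₂ ((h : E ≃ₐ[k] E) (x l)))) := by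
    intro f₁ f₂
    have h1 := hFev Λ f₁ (φ.comp (f₂ : E →+* Λ)) (by
      intro c₁
      rw [RingHom.comp_apply, RingHom.coe_coe, AlgHom.commutes, hφx, map_pow, hq])
    simp only [RingHom.comp_apply, RingHom.coe_coe] at h1
    rw [h1, map_Q, map_Q, map_prod]
    congr 3
    apply prod_congr rfl
    intro t₁ _
    rw [map_sub, hφx (algebraMap k Λ t₁), map_pow, hq]
  have hprq : ∀ t₀ ∈ S₀, ∀ g : G, _ := fun t₀ ht g =>
    (pairsP hpair hA pp t₀ q M hab hq1 x hx m (hdet t₀ ht) (hden t₀ ht) (hmint t₀ ht) φ hφn g g).1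
  have hae : ∀ (c' : k) (y : Λ), ∀ P : k[X], aeval s P = y → aeval s (Polynomial.C c' + P) = algebraMap k Λ c' + y := by
    intro c' y P hP
    rw [map_add, aeval_C, hP]
  -- vertical lines
  have hvert : ∀ t₀ ∈ S₀, Polynomial.C ((Polynomial.X - Polynomial.C t₀) ^ ⌈(M' : ℝ) + V t₀⌉₊) ∣ F := by
    intro t₀ ht
    apply (hev k l r F t₀ ⌈(M' : ℝ) + V t₀⌉₊ 0).1
    apply (Set.Finite.infinite_compl S₀.finite_toSet).mono
    intro c' hc'
    have hc'' : c' ∉ S₀ := fun h => hc' (mem_coe.2 h)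
    show Polynomial.X ^ ⌈(M' : ℝ) + V t₀⌉₊ ∣ ev F (Polynomial.C t₀ + Polynomial.X) ((Polynomial.C c' + Polynomial.X) ^ l ^ r)
    apply pow_dvd_of_norm hnpol hA
    rw [ev_map, hae t₀ s _ (aeval_X _), map_pow, hae c' s _ (aeval_X _), ← hq, ← hφx, ← pp.hι t₀, ← pp.hι c', hEv (pp.ι t₀) (pp.ι c'),
      norm_mul, norm_mul, norm_pow, norm_pow, norm_prod]
    have n1 := (norm_Q hA (pp.ι t₀) (pp.hι t₀) hs1 S₀).2 ht
    have n2 := (norm_Q hA (pp.ι c') (pp.hι c') hs1 S₀).1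
    rw [hA.norm_s] at n1
    have n3 : ∏ g : G, ‖∏ h : G, bd a b (fun l => pp.ι t₀ ((g : E ≃ₐ[k] E) (x l))) (fun l => φ (pp.ι c' ((h : E ≃ₐ[k] E) (x l))))‖ ≤
        Real.exp (-(V t₀)) := by
      simp only [norm_prod]
      refine (exp_prod (fun g _ => A1 pp M x m t₀ g) _ (fun _ _ => norm_nonneg _) (fun g h =>
        ((hprq t₀ ht g) _ (fun l => (by
          rw [hφn]
          exact pow_le_one₀ (norm_nonneg _) ((hInt l).1 c' hc'' h h.2)))).1)).trans (le_of_eq ?_)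
      rw [hV]
      simp only [sum_const, card_univ, nsmul_eq_mul]
      rw [← mul_sum]
    have n4 : ‖pp.ι t₀ (aeval t (∏ t₀ ∈ S₀, (Polynomial.X - Polynomial.C t₀)))‖ ^ M' ≤ Real.exp (-(M' : ℝ)) := by
      calc ‖pp.ι t₀ (aeval t (∏ t₀ ∈ S₀, (Polynomial.X - Polynomial.C t₀)))‖ ^ M' ≤ (Real.exp (-1)) ^ M' :=
            pow_le_pow_left₀ (norm_nonneg _) n1 _
        _ = _ := by
            rw [← Real.exp_nat_mul]
            congr 1
            ring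
    have n5 : ‖φ (pp.ι c' (aeval t (∏ t₀ ∈ S₀, (Polynomial.X - Polynomial.C t₀))))‖ ^ M' ≤ 1 := by
      rw [hφn]
      exact pow_le_one₀ (by positivity) (pow_le_one₀ (norm_nonneg _) n2)
    calc _ ≤ Real.exp (-(M' : ℝ)) * 1 * Real.exp (-(V t₀)) := by
          apply mul_le_mul _ n3 (prod_nonneg (fun _ _ => norm_nonneg _)) (by positivity)
          exact mul_le_mul n4 n5 (by positivity) (by positivity)
      _ = _ := by
          rw [mul_one, ← Real.exp_add]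
          congr 1
          ring
  -- horizontal lines
  have hhor : ∀ t₀ ∈ S₀, (Polynomial.X - Polynomial.C (Polynomial.C (t₀ ^ l ^ r))) ^ ⌈(M' : ℝ) + H t₀⌉₊ ∣ F := by
    intro t₀ ht
    apply (hev k l r F t₀ ⌈(M' : ℝ) + H t₀⌉₊ ⌈(q : ℝ) * ((M' : ℝ) + H t₀)⌉₊).2
    · apply (Set.Finite.infinite_compl S₀.finite_toSet).mono
      intro c' hc'
      have hc'' : c' ∉ S₀ := fun h => hc' (mem_coe.2 h)
      show Polynomial.X ^ ⌈(q : ℝ) * ((M' : ℝ) + H t₀)⌉₊ ∣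
        ev F (Polynomial.C c' + Polynomial.X) ((Polynomial.C t₀ + Polynomial.X) ^ l ^ r)
      apply pow_dvd_of_norm hnpol hA
      rw [ev_map, map_pow, hae t₀ s _ (aeval_X _), hae c' s _ (aeval_X _), ← hq, ← hφx, ← pp.hι t₀, ← pp.hι c', hEv (pp.ι c') (pp.ι t₀),
        norm_mul, norm_mul, norm_pow, norm_pow, norm_prod]
      have n1 := (norm_Q hA (pp.ι t₀) (pp.hι t₀) hs1 S₀).2 ht
      have n2 := (norm_Q hA (pp.ι c') (pp.hι c') hs1 S₀).1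
      rw [hA.norm_s] at n1
      have n3 : ∏ g : G, ‖∏ h : G, bd a b (fun l => pp.ι c' ((g : E ≃ₐ[k] E) (x l))) (fun l => φ (pp.ι t₀ ((h : E ≃ₐ[k] E) (x l))))‖ ≤
          Real.exp (-(q * H t₀)) := by
        simp only [norm_prod]
        refine (exp_prod (fun _ h => q * B1 pp M x m t₀ h) _ (fun _ _ => norm_nonneg _) (fun g h =>
          ((hprq t₀ ht h) _ (fun l => (hInt l).1 c' hc'' g g.2)).2)).trans (le_of_eq ?_)
        rw [hH]
        simp only [sum_const, card_univ, nsmul_eq_mul, ← mul_sum]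
        congr 1
        rw [hν]
        ring
      have n4 : ‖φ (pp.ι t₀ (aeval t (∏ t₀ ∈ S₀, (Polynomial.X - Polynomial.C t₀))))‖ ^ M' ≤ Real.exp (-(q * (M' : ℝ))) := by
        rw [hφn]
        calc (‖pp.ι t₀ (aeval t (∏ t₀ ∈ S₀, (Polynomial.X - Polynomial.C t₀)))‖ ^ q) ^ M' ≤ (Real.exp (-1) ^ q) ^ M' :=
              pow_le_pow_left₀ (by positivity) (pow_le_pow_left₀ (norm_nonneg _) n1 _) _
          _ = _ := by
              rw [← pow_mul, ← Real.exp_nat_mul]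
              congr 1
              push_cast
              ring
      have n5 : ‖pp.ι c' (aeval t (∏ t₀ ∈ S₀, (Polynomial.X - Polynomial.C t₀)))‖ ^ M' ≤ 1 := pow_le_one₀ (norm_nonneg _) n2
      calc _ ≤ 1 * Real.exp (-(q * (M' : ℝ))) * Real.exp (-(q * H t₀)) := by
            apply mul_le_mul _ n3 (prod_nonneg (fun _ _ => norm_nonneg _)) (by positivity)
            exact mul_le_mul n5 n4 (by positivity) (by positivity)
        _ = _ := by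
            rw [one_mul, ← Real.exp_add]
            congr 1
            ring
    · rw [← hq]
      have h1 := Nat.ceil_lt_add_one (hM'V t₀ ht).2
      have h2 := Nat.le_ceil ((q : ℝ) * ((M' : ℝ) + H t₀))
      have h3 : (q : ℝ) * ((⌈(M' : ℝ) + H t₀⌉₊ : ℕ) : ℝ) < q * ((M' : ℝ) + H t₀ + 1) :=
        mul_lt_mul_of_pos_left h1 (by exact_mod_cast hq1)
      have h4 : ((q * ⌈(M' : ℝ) + H t₀⌉₊ : ℕ) : ℝ) < ((⌈(q : ℝ) * ((M' : ℝ) + H t₀)⌉₊ + q : ℕ) : ℝ) := by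
        push_cast
        linarith
      exact_mod_cast h4
  -- weighted
  have hwei : ∀ t₀ ∈ S, {c' : k | ¬ Polynomial.X ^ ⌈(M' : ℝ) * (1 + Θ) + (V t₀ + Θ * H t₀ + Γ t₀)⌉₊ ∣
      ev F (Polynomial.C t₀ + Polynomial.X) (Polynomial.C (t₀ ^ l ^ r) + Polynomial.C c' * Polynomial.X ^ (J * l ^ r))}.Finite := by
    intro t₀ htS
    have ht := hSS htS
    apply (Set.finite_singleton (0 : k)).subset
    intro c' hc'
    rw [Set.mem_singleton_iff]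
    by_contra hc0
    apply hc'
    obtain ⟨c₂, hc₂⟩ := IsAlgClosed.exists_pow_nat_eq c' (n := q) (by omega)
    have hc₂0 : c₂ ≠ 0 := by
      rintro rfl
      rw [zero_pow (by omega)] at hc₂
      exact hc0 hc₂.symm
    obtain ⟨Φ, hΦs, hΦ⟩ := hA.twist J (by omega) c₂ hc₂0
    apply pow_dvd_of_norm hnpol hA
    have hΦι : φ ((Φ.comp (pp.ι t₀)) t) = algebraMap k Λ (t₀ ^ l ^ r) + algebraMap k Λ c' * s ^ (J * l ^ r) := by
      rw [AlgHom.comp_apply, pp.hι t₀, map_add, AlgHom.commutes, hΦs, map_add, hφx, hφx, mul_pow, ← map_pow, ← map_pow, hc₂, ← pow_mul, hq]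
    have hΨ : ∀ x, ‖(φ.comp (Φ : Λ →+* Λ)) x‖ = ‖x‖ ^ Θ := by
      intro x
      rw [RingHom.comp_apply, hφn, RingHom.coe_coe, hΦ, ← pow_mul, hΘd]
    rw [ev_map, hae t₀ s _ (aeval_X _), hae (t₀ ^ l ^ r) (algebraMap k Λ c' * s ^ (J * l ^ r)) _ (by rw [map_mul, aeval_C, map_pow, aeval_X]),
      ← hΦι, ← pp.hι t₀, hEv (pp.ι t₀) (Φ.comp (pp.ι t₀)), norm_mul, norm_mul, norm_pow, norm_pow, norm_prod]
    have n1 := (norm_Q hA (pp.ι t₀) (pp.hι t₀) hs1 S₀).2 ht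
    rw [hA.norm_s] at n1
    have n2 : ‖φ ((Φ.comp (pp.ι t₀)) (aeval t (∏ t₀ ∈ S₀, (Polynomial.X - Polynomial.C t₀))))‖ ≤ Real.exp (-1) ^ Θ := by
      have := hΨ (pp.ι t₀ (aeval t (∏ t₀ ∈ S₀, (Polynomial.X - Polynomial.C t₀))))
      rw [RingHom.comp_apply, RingHom.coe_coe] at this
      rw [AlgHom.comp_apply, this]
      exact pow_le_pow_left₀ (norm_nonneg _) n1 _
    have n3 : ∏ g : G, ‖∏ h : G, bd a b (fun l => pp.ι t₀ ((g : E ≃ₐ[k] E) (x l)))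
        (fun l => φ ((Φ.comp (pp.ι t₀)) ((h : E ≃ₐ[k] E) (x l))))‖ ≤ Real.exp (-(V t₀ + Θ * H t₀ + Γ t₀)) := by
      simp only [norm_prod]
      refine (exp_prod (fun g h => A1 pp M x m t₀ g + Θ * B1 pp M x m t₀ h + if g = h then C1 pp Θ M x m t₀ g else 0) _
        (fun _ _ => norm_nonneg _) (fun g h => (pairsP hpair hA pp t₀ Θ M hab hΘ1 x hx m (hdet t₀ ht) (hden t₀ ht) (hmint t₀ ht)
          (φ.comp (Φ : Λ →+* Λ)) hΨ g h).2)).trans (le_of_eq ?_)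
      congr 2
      simp only [sum_add_distrib, sum_const, card_univ, nsmul_eq_mul, sum_ite_eq, mem_univ, if_true]
      rw [hV, hH, hΓ]
      simp only [← mul_sum]
      ring
    have n4 : ‖pp.ι t₀ (aeval t (∏ t₀ ∈ S₀, (Polynomial.X - Polynomial.C t₀)))‖ ^ M' ≤ Real.exp (-(M' : ℝ)) := by
      calc ‖pp.ι t₀ (aeval t (∏ t₀ ∈ S₀, (Polynomial.X - Polynomial.C t₀)))‖ ^ M' ≤ (Real.exp (-1)) ^ M' :=
            pow_le_pow_left₀ (norm_nonneg _) n1 _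
        _ = _ := by
            rw [← Real.exp_nat_mul]
            congr 1
            ring
    have n5 : ‖φ ((Φ.comp (pp.ι t₀)) (aeval t (∏ t₀ ∈ S₀, (Polynomial.X - Polynomial.C t₀))))‖ ^ M' ≤ Real.exp (-(M' * Θ : ℝ)) := by
      calc _ ≤ (Real.exp (-1) ^ Θ) ^ M' := pow_le_pow_left₀ (norm_nonneg _) n2 _
        _ = _ := by
            rw [← pow_mul, ← Real.exp_nat_mul]
            congr 1
            push_cast
            ring
    calc _ ≤ Real.exp (-(M' : ℝ)) * Real.exp (-(M' * Θ : ℝ)) * Real.exp (-(V t₀ + Θ * H t₀ + Γ t₀)) := by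
          apply mul_le_mul _ n3 (prod_nonneg (fun _ _ => norm_nonneg _)) (by positivity)
          exact mul_le_mul n4 n5 (by positivity) (by positivity)
      _ = _ := by
          rw [← Real.exp_add, ← Real.exp_add]
          congr 1
          ring
  -- the diagonal
  have hdiag : ¬ (Polynomial.X - Polynomial.C (Polynomial.X ^ l ^ r) : k[X][X]) ^ (Fintype.card G * (Fintype.card G * c) + 1) ∣ F := by
    intro hdv
    have eC : ∀ y : E, ((Algebra.ofId E (PowerSeries E)).restrictScalars k) y = PowerSeries.C y := by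
      intro y
      rw [AlgHom.restrictScalars_apply, Algebra.ofId_apply, PowerSeries.algebraMap_apply]
      rfl
    have htw : ∀ y : E, tw l r τ y = PowerSeries.map (iterateFrobenius E l r) (τ y) := fun y => rfl
    have htwt : tw l r τ t = PowerSeries.C (t ^ l ^ r) + PowerSeries.X := by
      rw [htw, hτt, map_add, PowerSeries.map_C, PowerSeries.map_X, iterateFrobenius_def]
    have hF' := hFev (PowerSeries E) ((Algebra.ofId E (PowerSeries E)).restrictScalars k) (tw l r τ) (by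
      intro c₁
      rw [htw, AlgHom.commutes, PowerSeries.algebraMap_apply, PowerSeries.map_C, iterateFrobenius_def, ← map_pow,
        PowerSeries.algebraMap_apply])
    have e0 := ev_dvd hdv (((Algebra.ofId E (PowerSeries E)).restrictScalars k) t) (tw l r τ t)
    have ed : ev (Polynomial.X - Polynomial.C (Polynomial.X ^ l ^ r) : k[X][X])
        (((Algebra.ofId E (PowerSeries E)).restrictScalars k) t) (tw l r τ t) = PowerSeries.X := by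
      unfold ev
      rw [Polynomial.eval₂_sub, Polynomial.eval₂_X, Polynomial.eval₂_C, RingHom.coe_coe, map_pow, aeval_X, eC, htwt, map_pow]
      ring
    rw [ev_pow, ed, hF'] at e0
    simp only [eC] at e0
    have hne : ∀ t₁ : k, t - algebraMap k E t₁ ≠ 0 := by
      intro t₁ h0
      have h1 := (transcendental_iff.1 hGal.trans) (Polynomial.X - Polynomial.C t₁) (by
        rw [map_sub, aeval_X, aeval_C]
        exact h0)
      exact Polynomial.X_sub_C_ne_zero t₁ h1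
    have p1 : ¬ (PowerSeries.X : PowerSeries E) ∣ ∏ t₁ ∈ S₀, (PowerSeries.C t - algebraMap k (PowerSeries E) t₁) := by
      rw [PowerSeries.X_dvd_iff, map_prod]
      apply prod_ne_zero_iff.2
      intro t₁ _
      rw [PowerSeries.algebraMap_apply]
      simpa using hne t₁
    have p2 : ¬ (PowerSeries.X : PowerSeries E) ∣ ∏ t₁ ∈ S₀, (tw l r τ t - algebraMap k (PowerSeries E) (t₁ ^ l ^ r)) := by
      rw [PowerSeries.X_dvd_iff, map_prod]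
      apply prod_ne_zero_iff.2
      intro t₁ _
      have h1 : PowerSeries.constantCoeff (tw l r τ t - algebraMap k (PowerSeries E) (t₁ ^ l ^ r)) =
          (t - algebraMap k E t₁) ^ l ^ r := by
        rw [htwt, PowerSeries.algebraMap_apply, sub_pow_char_pow, ← map_pow]
        simp
      rw [h1]
      exact pow_ne_zero _ (hne t₁)
    have p3 : ¬ (PowerSeries.X : PowerSeries E) ∣ (∏ t₁ ∈ S₀, (PowerSeries.C t - algebraMap k (PowerSeries E) t₁)) ^ M' *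
        (∏ t₁ ∈ S₀, (tw l r τ t - algebraMap k (PowerSeries E) (t₁ ^ l ^ r))) ^ M' := by
      intro h
      rcases PowerSeries.X_prime.dvd_or_dvd h with h | h
      · exact p1 (PowerSeries.X_prime.dvd_of_dvd_pow h)
      · exact p2 (PowerSeries.X_prime.dvd_of_dvd_pow h)
    have e1 := PowerSeries.X_prime.pow_dvd_of_dvd_mul_left _ p3 e0
    have hτg' : ∀ g ∈ G, ∀ y, tw l r τ (g y) = PowerSeries.map ((g : E →ₐ[k] E) : E →+* E) (tw l r τ y) := by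
      intro g hg y
      rw [htw, htw, hτg g hg y]
      ext n
      simp only [PowerSeries.coeff_map, iterateFrobenius_def, map_pow]
    have h1 : ∀ g : G, ¬ (PowerSeries.X : PowerSeries E) ^ (Fintype.card G * c + 1) ∣
        ∏ h : G, bd a b (fun l => PowerSeries.C ((g : E ≃ₐ[k] E) (x l))) (fun i => tw l r τ ((h : E ≃ₐ[k] E) (x i))) := by
      intro g
      have := order_prod (univ : Finset G) (fun h => bd a b (fun l => PowerSeries.C ((g : E ≃ₐ[k] E) (x l)))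
        (fun i => tw l r τ ((h : E ≃ₐ[k] E) (x i)))) c (by
          intro h _ hd
          have e2 : bd a b (fun l => PowerSeries.C ((g : E ≃ₐ[k] E) (x l))) (fun i => tw l r τ ((h : E ≃ₐ[k] E) (x i))) =
              PowerSeries.map (((g : E ≃ₐ[k] E) : E →ₐ[k] E) : E →+* E)
                (bd a b (fun l => PowerSeries.C (x l)) (fun i => tw l r τ (((g⁻¹ * h : G) : E ≃ₐ[k] E) (x i)))) := by
            rw [bd_map]
            congr 1
            · funext i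
              rw [PowerSeries.map_C]
              rfl
            · funext i
              rw [← hτg' g g.2]
              congr 1
              rw [Subgroup.coe_mul, Subgroup.coe_inv, AlgEquiv.mul_apply, ← AlgEquiv.mul_apply, mul_inv_cancel, AlgEquiv.one_apply]
          rw [e2] at hd
          exact hord _ (g⁻¹ * h).2 (X_pow_dvd_map _ _ _ hd))
      simpa using this
    have h2 := order_prod (univ : Finset G) (fun g => ∏ h : G, bd a b (fun l => PowerSeries.C ((g : E ≃ₐ[k] E) (x l)))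
        (fun i => tw l r τ ((h : E ≃ₐ[k] E) (x i)))) (Fintype.card G * c) (fun g _ => h1 g)
    exact h2 (by simpa using e1)
  have hF0 : F ≠ 0 := fun h => hdiag (h ▸ dvd_zero _)
  -- counting
  have hcnt := hcount k l r F hF0 (M' * S₀.card) (M' * S₀.card) hF2 hF1 S S₀ hSS (fun t₀ => ⌈(M' : ℝ) + V t₀⌉₊)
    (fun t₀ => ⌈(M' : ℝ) + H t₀⌉₊) (fun t₀ => ⌈(M' : ℝ) * (1 + Θ) + (V t₀ + Θ * H t₀ + Γ t₀)⌉₊) J
    (Fintype.card G * (Fintype.card G * c)) hJ hvert hhor hdiag hwei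
  have hcntR : (∑ t₀ ∈ S, (((⌈(M' : ℝ) * (1 + Θ) + (V t₀ + Θ * H t₀ + Γ t₀)⌉₊ : ℕ) : ℝ) - (⌈(M' : ℝ) + V t₀⌉₊ : ℕ) -
      J * (l : ℝ) ^ r * (⌈(M' : ℝ) + H t₀⌉₊ : ℕ) - (l : ℝ) ^ r * (Fintype.card G * (Fintype.card G * c) : ℕ))) ≤
      J * (((M' * S₀.card : ℕ) : ℝ) + (l : ℝ) ^ r * (M' * S₀.card : ℕ) - ∑ t₀ ∈ S₀, ((⌈(M' : ℝ) + V t₀⌉₊ : ℕ) : ℝ) -
        (l : ℝ) ^ r * ∑ t₀ ∈ S₀, ((⌈(M' : ℝ) + H t₀⌉₊ : ℕ) : ℝ)) := by
    exact_mod_cast hcnt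
  have hΘR : ((Θ : ℕ) : ℝ) = J * (l : ℝ) ^ r := by
    rw [hΘd]
    push_cast
    rw [hqR]
  have hlow : ∀ t₀ ∈ S, Γ t₀ - 1 - Θ - (l : ℝ) ^ r * (ν * (ν * c)) ≤ ((⌈(M' : ℝ) * (1 + Θ) + (V t₀ + Θ * H t₀ + Γ t₀)⌉₊ : ℕ) : ℝ) -
      (⌈(M' : ℝ) + V t₀⌉₊ : ℕ) - J * (l : ℝ) ^ r * (⌈(M' : ℝ) + H t₀⌉₊ : ℕ) -
        (l : ℝ) ^ r * (Fintype.card G * (Fintype.card G * c) : ℕ) := by
    intro t₀ ht
    have h1 := Nat.le_ceil ((M' : ℝ) * (1 + Θ) + (V t₀ + Θ * H t₀ + Γ t₀))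
    have h2 := (Nat.ceil_lt_add_one (hM'V t₀ (hSS ht)).1).le
    have h3 := (Nat.ceil_lt_add_one (hM'V t₀ (hSS ht)).2).le
    have h4 : (Θ : ℝ) * ((⌈(M' : ℝ) + H t₀⌉₊ : ℕ) : ℝ) ≤ Θ * ((M' : ℝ) + H t₀ + 1) :=
      mul_le_mul_of_nonneg_left h3 (Nat.cast_nonneg Θ)
    have h5 : ((Fintype.card G * (Fintype.card G * c) : ℕ) : ℝ) = ν * (ν * c) := by
      rw [hν]
      push_cast
      ring
    rw [h5, ← hΘR]
    linarith
  have hleft := sum_le_sum hlow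
  have hright1 : ((M' * S₀.card : ℕ) : ℝ) - ∑ t₀ ∈ S₀, ((⌈(M' : ℝ) + V t₀⌉₊ : ℕ) : ℝ) ≤ -∑ t₀ ∈ S₀, V t₀ := by
    have h1 : ∑ t₀ ∈ S₀, ((M' : ℝ) + V t₀) ≤ ∑ t₀ ∈ S₀, ((⌈(M' : ℝ) + V t₀⌉₊ : ℕ) : ℝ) := sum_le_sum (fun t₀ _ => Nat.le_ceil _)
    rw [sum_add_distrib, sum_const, nsmul_eq_mul] at h1
    push_cast
    linarith
  have hright2 : ((M' * S₀.card : ℕ) : ℝ) - ∑ t₀ ∈ S₀, ((⌈(M' : ℝ) + H t₀⌉₊ : ℕ) : ℝ) ≤ -∑ t₀ ∈ S₀, H t₀ := by
    have h1 : ∑ t₀ ∈ S₀, ((M' : ℝ) + H t₀) ≤ ∑ t₀ ∈ S₀, ((⌈(M' : ℝ) + H t₀⌉₊ : ℕ) : ℝ) := sum_le_sum (fun t₀ _ => Nat.le_ceil _)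
    rw [sum_add_distrib, sum_const, nsmul_eq_mul] at h1
    push_cast
    linarith
  -- the product formula
  have hpf : ∑ t₀ ∈ S₀, ∑ g : G, (∑ l, ∑ j ∈ univ.erase l, (pp.u t₀ ((g : E ≃ₐ[k] E) (x l - x j)) : ℝ) / pp.e t₀) = 0 := by
    have e1 : ∑ t₀ ∈ S₀, ∑ g : G, (∑ l, ∑ j ∈ univ.erase l, (pp.u t₀ ((g : E ≃ₐ[k] E) (x l - x j)) : ℝ) / pp.e t₀) =
        ∑ l, ∑ j ∈ univ.erase l, ∑ t₀ ∈ S₀, ∑ g : G, (pp.u t₀ ((g : E ≃ₐ[k] E) (x l - x j)) : ℝ) / pp.e t₀ := by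
      calc _ = ∑ t₀ ∈ S₀, ∑ l, ∑ g : G, ∑ j ∈ univ.erase l, (pp.u t₀ ((g : E ≃ₐ[k] E) (x l - x j)) : ℝ) / pp.e t₀ :=
            sum_congr rfl (fun t₀ _ => sum_comm)
        _ = ∑ t₀ ∈ S₀, ∑ l, ∑ j ∈ univ.erase l, ∑ g : G, (pp.u t₀ ((g : E ≃ₐ[k] E) (x l - x j)) : ℝ) / pp.e t₀ :=
            sum_congr rfl (fun t₀ _ => sum_congr rfl (fun l _ => sum_comm))
        _ = ∑ l, ∑ t₀ ∈ S₀, ∑ j ∈ univ.erase l, ∑ g : G, (pp.u t₀ ((g : E ≃ₐ[k] E) (x l - x j)) : ℝ) / pp.e t₀ := sum_comm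
        _ = _ := sum_congr rfl (fun l _ => sum_comm)
    rw [e1]
    apply sum_eq_zero
    intro l _
    apply sum_eq_zero
    intro j hj
    have hlj : l ≠ j := (ne_of_mem_erase hj).symm
    exact hprod k E Λ t s G hA hGal pp S₀ (x l - x j) (sub_ne_zero.2 (fun h => hlj (hx h))) (hUnit l j hlj)
  have hLS : ∀ t₀ ∈ S₀, ∀ g : G, LS (fun n => (n : ℝ) * (n - 1)) M (oo pp x m t₀ g) =
      ∑ l, ∑ j ∈ univ.erase l, (oo pp x m t₀ g l j : ℝ) := by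
    intro t₀ ht g
    apply hlsq
    intro l j hlj
    refine ⟨?_, hM t₀ ht g l j hlj⟩
    have hzne : (g : E ≃ₐ[k] E) ((m t₀ g).app (x l) - (m t₀ g).app (x j)) ≠ 0 := by
      apply (_root_.map_ne_zero _).2
      intro h0
      exact hlj (hx (app_inj (hdet t₀ ht g) (hden t₀ ht g l) (hden t₀ ht g j) (sub_eq_zero.1 h0)))
    have hn1 := (pp.pl t₀).norm _ hzne
    have hn2 : ‖pp.ι t₀ ((g : E ≃ₐ[k] E) ((m t₀ g).app (x l) - (m t₀ g).app (x j)))‖ ≤ 1 := by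
      rw [map_sub, map_sub, sub_eq_add_neg]
      refine (IsUltrametricDist.norm_add_le_max _ _).trans (max_le (hmint t₀ ht g l) ?_)
      rw [norm_neg]
      exact hmint t₀ ht g j
    rw [hn1, Real.exp_le_one_iff] at hn2
    have he : (0 : ℝ) < pp.e t₀ := by exact_mod_cast (pp.pl t₀).he
    have h3 : (0 : ℝ) ≤ (pp.u t₀ ((g : E ≃ₐ[k] E) ((m t₀ g).app (x l) - (m t₀ g).app (x j))) : ℝ) / pp.e t₀ := by linarith
    have h4 : (0 : ℝ) ≤ (pp.u t₀ ((g : E ≃ₐ[k] E) ((m t₀ g).app (x l) - (m t₀ g).app (x j))) : ℝ) := by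
      by_contra hcon
      rw [not_le] at hcon
      exact absurd h3 (not_le.2 (div_neg_of_neg_of_pos hcon he))
    exact_mod_cast h4
  have hoo : ∀ t₀ ∈ S₀, ∀ g : G, (∑ l, ∑ j ∈ univ.erase l, (oo pp x m t₀ g l j : ℝ) / pp.e t₀) =
      LS (fun n => (n : ℝ) * (n - 1)) M (oo pp x m t₀ g) / pp.e t₀ := by
    intro t₀ ht g
    rw [hLS t₀ ht g, sum_div]
    exact sum_congr rfl (fun l _ => (sum_div _ _ _).symm)
  have hV1 : -∑ t₀ ∈ S₀, V t₀ = ν * ∑ t₀ ∈ S₀, ∑ g : G, LS (K1 a b) M (oo pp x m t₀ g) / pp.e t₀ := by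
    have e1 : ∀ t₀ ∈ S₀, V t₀ + ν * ∑ g : G, LS (K1 a b) M (oo pp x m t₀ g) / pp.e t₀ =
        ν * ((a : ℝ) / (2 * (((a : ℝ) + 1) * (b + 1) - 1))) *
          ∑ g : G, (∑ l, ∑ j ∈ univ.erase l, (pp.u t₀ ((g : E ≃ₐ[k] E) (x l - x j)) : ℝ) / pp.e t₀) := by
      intro t₀ ht
      rw [hV]
      simp only
      rw [← mul_add, ← sum_add_distrib, mul_assoc, mul_sum (univ : Finset G) _ ((a : ℝ) / _)]
      congr 1
      apply sum_congr rfl
      intro g _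
      rw [LS_K1]
      unfold A1 cc
      rw [hoo t₀ ht g]
      ring
    have e3 := sum_congr rfl e1
    rw [sum_add_distrib, ← mul_sum, ← mul_sum, hpf, mul_zero] at e3
    linarith
  have hH1 : -∑ t₀ ∈ S₀, H t₀ = ν * ∑ t₀ ∈ S₀, ∑ g : G, LS (K2 a b) M (oo pp x m t₀ g) / pp.e t₀ := by
    have e1 : ∀ t₀ ∈ S₀, H t₀ + ν * ∑ g : G, LS (K2 a b) M (oo pp x m t₀ g) / pp.e t₀ =
        ν * ((b : ℝ) / (2 * (((a : ℝ) + 1) * (b + 1) - 1))) *
          ∑ g : G, (∑ l, ∑ j ∈ univ.erase l, (pp.u t₀ ((g : E ≃ₐ[k] E) (x l - x j)) : ℝ) / pp.e t₀) := by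
      intro t₀ ht
      rw [hH]
      simp only
      rw [← mul_add, ← sum_add_distrib, mul_assoc, mul_sum (univ : Finset G) _ ((b : ℝ) / _)]
      congr 1
      apply sum_congr rfl
      intro g _
      rw [LS_K2]
      unfold B1 cc
      rw [hoo t₀ ht g]
      ring
    have e3 := sum_congr rfl e1
    rw [sum_add_distrib, ← mul_sum, ← mul_sum, hpf, mul_zero] at e3
    linarith
  -- conclusion
  obtain ⟨T1, hT1⟩ : ∃ T1 : ℝ, T1 = ∑ t₀ ∈ S₀, ∑ g : G, LS (K1 a b) M (oo pp x m t₀ g) / pp.e t₀ := ⟨_, rfl⟩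
  obtain ⟨T2, hT2⟩ : ∃ T2 : ℝ, T2 = ∑ t₀ ∈ S₀, ∑ g : G, LS (K2 a b) M (oo pp x m t₀ g) / pp.e t₀ := ⟨_, rfl⟩
  rw [← hT1] at hV1
  rw [← hT2] at hH1
  have hlr : (0 : ℝ) ≤ (l : ℝ) ^ r := by positivity
  have hfin : ∑ t₀ ∈ S, (Γ t₀ - 1 - Θ - (l : ℝ) ^ r * (ν * (ν * c))) ≤ J * (ν * T1 + (l : ℝ) ^ r * (ν * T2)) := by
    refine hleft.trans (hcntR.trans ?_)
    apply mul_le_mul_of_nonneg_left _ (Nat.cast_nonneg J)
    have h1 := mul_le_mul_of_nonneg_left hright2 hlr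
    rw [← hV1, ← hH1]
    rw [mul_sub] at h1
    linarith
  have hΓs : ∑ t₀ ∈ S, (Γ t₀ - 1 - Θ - (l : ℝ) ^ r * (ν * (ν * c))) =
      (∑ t₀ ∈ S, Γ t₀) - (S.card : ℝ) * ((l : ℝ) ^ r * (ν ^ 2 * c) + 1 + J * (l : ℝ) ^ r) := by
    simp only [sum_sub_distrib, sum_const, nsmul_eq_mul]
    rw [hΘR]
    ring
  rw [hΓs] at hfin
  have hgoal : ∑ t₀ ∈ S, Γ t₀ = ∑ t₀ ∈ S, ∑ g : G, LS (gam a b (J * l ^ r)) M (fun i j => pp.u t₀ ((g : E ≃ₐ[k] E)
        ((m t₀ g).app (x i) - (m t₀ g).app (x j)))) / pp.e t₀ := by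
    rw [hΓ, hΘd, hq]
    rfl
  rw [← hgoal]
  have hk : ∑ t₀ ∈ S₀, ∑ g : G, (LS (K1 a b) M (fun i j =>
          pp.u t₀ ((g : E ≃ₐ[k] E) ((m t₀ g).app (x i) - (m t₀ g).app (x j)))) +
          (l : ℝ) ^ r * LS (K2 a b) M (fun i j =>
          pp.u t₀ ((g : E ≃ₐ[k] E) ((m t₀ g).app (x i) - (m t₀ g).app (x j))))) / pp.e t₀ = T1 + (l : ℝ) ^ r * T2 := by
    rw [hT1, hT2, mul_sum, ← sum_add_distrib]
    apply sum_congr rfl
    intro t₀ _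
    rw [mul_sum, ← sum_add_distrib]
    apply sum_congr rfl
    intro g _
    unfold oo
    ring
  rw [hk]
  have : (J : ℝ) * ν * (T1 + (l : ℝ) ^ r * T2) = J * (ν * T1 + (l : ℝ) ^ r * (ν * T2)) := by ring
  rw [this]
  linarith

end Pool.Agent.Q84.SP
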